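import Pool.Agent.Helper75.CR.St

/-!
# Project CR, module H1
-/

set_option autoImplicit false

namespace Pool.Agent.Helper75.CR

open Helper1.IM

theorem hH1 (hD : Helper75.CR.StD) : Helper75.CR.StH1 := by
  intro B S θ hθ α β ha hb hca hcb u w v hcard h1 h2
  obtain ⟨i, hi⟩ := Finset.card_eq_one.1 hcard
  have hw : cn w = {i} := by rw [← h1.cn, hi]
  have hv : cn v = {i} := by rw [← h2.cn, hw]
  rcases u with _ | ⟨a, u'⟩
  · exact absurd rfl h1.ne
  rcases w with _ | ⟨b, w'⟩
  · exact absurd rfl h2.ne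
  rcases v with _ | ⟨c, v'⟩
  · exact absurd rfl h2.ne2
  have key : ∀ (x : ℕ × B) (t : Wo B), cn (x :: t) = {i} → x.1 = i ∧ Er θ [x] (x :: t) := by
    intro x t hx
    have h0 : x.1 = i := by
      have : x.1 ∈ ({i} : Finset ℕ) := by rw [← hx]; simp
      simpa using this
    refine ⟨h0, ?_⟩
    have h3 : Er θ [x] ([x] ++ t) := by
      refine hθ.ext (by simp) ?_
      have h4 : cn t ⊆ cn (x :: t) := by rw [cn_cons]; exact Finset.subset_insert _ _
      rw [hx] at h4
      simpa [h0] using h4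
    simpa using h3
  obtain ⟨ha1, ha2⟩ := key a u' hi
  obtain ⟨hb1, hb2⟩ := key b w' hw
  obtain ⟨hc1, hc2⟩ := key c v' hv
  by_cases hac : a = c
  · subst hac
    refine ⟨a :: u', Er.rfl' β (by simp), ?_⟩
    exact ((ha2.symm).trans hc2).mono ha
  · by_cases hab : a = b
    · have hbc : b ≠ c := fun h => hac (hab.trans h)
      have h5 := hD B S θ β hθ hb b c w' v' (hb1.trans hc1.symm) hbc h2 i a.2 c.2
      have h6 : [(i, a.2)] = [a] := by rw [← ha1]
      have h7 : [(i, c.2)] = [c] := by rw [← hc1]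
      rw [h6, h7] at h5
      exact ⟨c :: v', ((ha2.symm.mono hb).trans h5).trans (hc2.mono hb), Er.rfl' α (by simp)⟩
    · have h5 := hD B S θ α hθ ha a b u' w' (ha1.trans hb1.symm) hab h1 i a.2 c.2
      have h6 : [(i, a.2)] = [a] := by rw [← ha1]
      have h7 : [(i, c.2)] = [c] := by rw [← hc1]
      rw [h6, h7] at h5
      exact ⟨a :: u', Er.rfl' β (by simp), ((ha2.symm.mono ha).trans h5).trans (hc2.mono ha)⟩

end Pool.Agent.Helper75.CR
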