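import Pool.Agent.Helper75.CR.St

set_option autoImplicit false

namespace Pool.Agent.Helper75.CR

open Helper1.IM

theorem bef_of_mem {B : Type} {i k : ℕ} {s : Wo B} (hi : i ∈ cn s) (hk : k ∉ cn s) (t : Wo B) : Bef i k (s ++ t) := by
  induction s with
  | nil => simp at hi
  | cons a s ih =>
    by_cases h : a.1 = i
    · refine ⟨[], a, s ++ t, by simp, h, by simp, by simp⟩
    · have hi' : i ∈ cn s := by
        rw [cn_cons, Finset.mem_insert] at hi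
        rcases hi with h' | h'
        · exact absurd h'.symm h
        · exact h'
      rw [cn_cons, Finset.mem_insert, not_or] at hk
      obtain ⟨s', a', t', h1, h2, h3, h4⟩ := ih hi' hk.2
      refine ⟨a :: s', a', t', by simp [h1], h2, ?_, ?_⟩
      · rw [cn_cons, Finset.mem_insert, not_or]
        exact ⟨fun h' => h h'.symm, h3⟩
      · rw [cn_cons, Finset.mem_insert, not_or]
        exact ⟨hk.1, h4⟩

theorem h4_idx {B : Type} {S : Sgn B} {θ α : Pg S} (hA : StA) (hθ : Bs S θ) (hα : LeP θ α) (hnA : ¬ AA α)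
    {u w s1 t1 s2 t2 : Wo B} {a1 a2 : ℕ × B} (h : Er α u w)
    (hu : u = s1 ++ a1 :: t1) (h1 : a1.1 ∉ cn s1) (h1' : cn (s1 ++ [a1]) = cn u)
    (hw : w = s2 ++ a2 :: t2) (h2 : a2.1 ∉ cn s2) (h2' : cn (s2 ++ [a2]) = cn w) : a1.1 = a2.1 := by
  by_contra hne
  apply hnA
  have hc := h.cn
  have e1 : a2.1 ∈ cn s1 := by
    have h3 : a2.1 ∈ cn (s1 ++ [a1]) := by
      rw [h1', hc, ← h2']
      simp
    rw [cn_append, Finset.mem_union] at h3
    rcases h3 with h3 | h3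
    · exact h3
    · simp at h3
      exact absurd h3.symm hne
  have e2 : a1.1 ∈ cn s2 := by
    have h3 : a1.1 ∈ cn (s2 ++ [a2]) := by
      rw [h2', ← hc, ← h1']
      simp
    rw [cn_append, Finset.mem_union] at h3
    rcases h3 with h3 | h3
    · exact h3
    · simp at h3
      exact absurd h3 hne
  refine hA B S θ α hθ hα a2.1 a1.1 u w (Ne.symm hne) h ?_ ?_
  · rw [hu]
    exact bef_of_mem e1 h1 _
  · rw [hw]
    exact bef_of_mem e2 h2 _

theorem h4_cn {B : Type} {u s t : Wo B} {a : ℕ × B} (_hu : u = s ++ a :: t) (h1 : a.1 ∉ cn s)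
    (h1' : cn (s ++ [a]) = cn u) : cn s = (cn u).erase a.1 := by
  rw [← h1', cn_append, cn_cons, cn_nil]
  ext i
  simp only [Finset.mem_erase, Finset.mem_union, Finset.mem_insert, Finset.notMem_empty, or_false]
  constructor
  · intro hi
    exact ⟨fun h => h1 (h ▸ hi), Or.inl hi⟩
  · rintro ⟨h2, h3 | h3⟩
    · exact h3
    · exact absurd h3 h2

/-- The initial part up to the last new letter is related to the word. -/
theorem h4_ini {B : Type} {S : Sgn B} {θ α : Pg S} (hθ : Bs S θ) (hα : LeP θ α)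
    {u s t : Wo B} {a : ℕ × B} (hu : u = s ++ a :: t)
    (h1' : cn (s ++ [a]) = cn u) : Er α (s ++ [a]) u := by
  have h2 : u = (s ++ [a]) ++ t := by rw [hu]; simp
  have h3 : Er α (s ++ [a]) ((s ++ [a]) ++ t) := by
    refine hθ.extρ hα (by simp) ?_
    rw [h1', hu]
    intro i hi
    rw [cn_append, cn_cons, Finset.mem_union, Finset.mem_insert]
    exact Or.inr (Or.inr hi)
  rwa [← h2] at h3

/-- Passing to the congruence of the initial parts. -/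
theorem h4_step {B : Type} {S : Sgn B} {θ α : Pg S} (hE : StE) (hθ : Bs S θ) (hα : LeP θ α)
    {s1 s2 : Wo B} {k : ℕ} {b1 b2 : B} (hs1 : s1 ≠ []) (hs2 : s2 ≠ []) (hc : cn s1 = cn s2) (hk : k ∉ cn s1)
    (h : Er α (s1 ++ [(k, b1)]) (s2 ++ [(k, b2)])) :
    Er α (s1 ++ [(k, b1)]) (s2 ++ [(k, b1)]) := by
  by_cases hb : b1 = b2
  · subst hb
    exact h
  · exact h.trans (hE B S θ α hθ hα k b1 b2 s1 s2 hb hs1 hc hk h s2 k b2 b1 hs2)

theorem hH4 (hA : StA) (hE : StE) (hF : StF) (hG : StG) : StH4 := by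
  intro B S θ m hθ hm hPM α β hα hβ hcα hcβ hnα hnβ u w v hcard huw hwv
  obtain ⟨s1, a1, t1, e1, f1, g1⟩ := hF B u huw.ne
  obtain ⟨s2, a2, t2, e2, f2, g2⟩ := hF B w hwv.ne
  obtain ⟨s3, a3, t3, e3, f3, g3⟩ := hF B v hwv.ne2
  have i12 : a1.1 = a2.1 := h4_idx hA hθ hα hnα huw e1 f1 g1 e2 f2 g2
  have i23 : a2.1 = a3.1 := h4_idx hA hθ hβ hnβ hwv e2 f2 g2 e3 f3 g3
  have c1 := h4_cn e1 f1 g1
  have c2 := h4_cn e2 f2 g2
  have c3 := h4_cn e3 f3 g3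
  have c12 : cn s1 = cn s2 := by rw [c1, c2, huw.cn, i12]
  have c23 : cn s2 = cn s3 := by rw [c2, c3, hwv.cn, i23]
  have hcs1 : (cn s1).card = m := by
    rw [c1, Finset.card_erase_of_mem, hcard]
    · rfl
    · rw [← g1]
      simp
  have hs1 : s1 ≠ [] := by
    intro h
    rw [h] at hcs1
    simp at hcs1
    omega
  have hs2 : s2 ≠ [] := ne_nil_of_cn c12 hs1
  have hs3 : s3 ≠ [] := ne_nil_of_cn c23 hs2
  obtain ⟨k, b1⟩ := a1
  obtain ⟨k2, b2⟩ := a2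
  obtain ⟨k3, b3⟩ := a3
  simp only at i12 i23 f1 f2 f3
  subst i12
  subst i23
  have r12 : Er α (s1 ++ [(k, b1)]) (s2 ++ [(k, b2)]) :=
    ((h4_ini hθ hα e1 g1).trans huw).trans (h4_ini hθ hα e2 g2).symm
  have r23 : Er β (s2 ++ [(k, b2)]) (s3 ++ [(k, b3)]) :=
    ((h4_ini hθ hβ e2 g2).trans hwv).trans (h4_ini hθ hβ e3 g3).symm
  obtain ⟨α0, ha1, ha2, ha3, ha4⟩ := hG B S θ α hθ hα
  obtain ⟨β0, hb1, hb2, hb3, hb4⟩ := hG B S θ β hθ hβ
  have q12 : α0.r s1 s2 := ha4 s1 s2 k b1 hs1 c12 f1 (h4_step hE hθ hα hs1 hs2 c12 f1 r12)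
  have q23 : β0.r s2 s3 := hb4 s2 s3 k b2 hs2 c23 f2 (h4_step hE hθ hβ hs2 hs3 c23 f2 r23)
  obtain ⟨s', hs', hs''⟩ := hPM α0 β0 ha1 hb1 ha2 hb2 s1 s2 s3 hcs1 q12 q23
  have cs' : cn s1 = cn s' := hb2 _ _ hs'
  have hne' : s' ≠ [] := ne_nil_of_cn cs' hs1
  have fk' : k ∉ cn s' := by rw [← cs']; exact f1
  have k1 : Er β u (s1 ++ [(k, b1)]) := (h4_ini hθ hβ e1 g1).symm
  have k3 : Er α (s3 ++ [(k, b3)]) v := h4_ini hθ hα e3 g3
  have m1 : ∀ c : B, Er β (s1 ++ [(k, c)]) (s' ++ [(k, c)]) := fun c => hb3 s1 s' k c hs1 hs' f1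
  have m3 : ∀ c : B, Er α (s' ++ [(k, c)]) (s3 ++ [(k, c)]) := fun c => ha3 s' s3 k c hne' hs'' fk'
  by_cases h13 : b1 = b3
  · subst h13
    exact ⟨s' ++ [(k, b1)], k1.trans (m1 b1), (m3 b1).trans k3⟩
  · by_cases h12 : b1 = b2
    · have h23 : b2 ≠ b3 := fun h => h13 (h12.trans h)
      have n1 : Er β (s1 ++ [(k, b1)]) (s1 ++ [(k, b3)]) :=
        hE B S θ β hθ hβ k b2 b3 s2 s3 h23 hs2 c23 f2 r23 s1 k b1 b3 hs1
      exact ⟨s' ++ [(k, b3)], (k1.trans n1).trans (m1 b3), (m3 b3).trans k3⟩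
    · have n1 : Er α (s' ++ [(k, b1)]) (s' ++ [(k, b3)]) :=
        hE B S θ α hθ hα k b1 b2 s1 s2 h12 hs1 c12 f1 r12 s' k b1 b3 hne'
      exact ⟨s' ++ [(k, b1)], k1.trans (m1 b1), (n1.trans (m3 b3)).trans k3⟩

end Pool.Agent.Helper75.CR
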