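import Pool.Agent.Helper75.CR.St2

/-!
# Project CR, module N1
-/

set_option autoImplicit false

namespace Pool.Agent.Helper75.CR

open Helper1.IM

theorem hN1 : Helper75.CR.StN1 := by
  intro ρ hP s hs hr
  obtain ⟨r, hr⟩ := hr
  -- substitution
  have hf : ∀ i : ℕ, (fun _ : ℕ => s) i ≠ [] := fun _ => hs
  have e1 : ρ.r (s ++ st s) (st s ++ s) := by
    have := ρ.sub' (fun _ => s) hf hP.1
    simpa [X, Y, sb] using this
  have e2 : ρ.r (s ++ st s ++ s) (s ++ st s) := by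
    have := ρ.sub' (fun _ => s) hf hP.2
    simpa [X, Y, sb] using this
  have e3 : ρ.r (st s ++ s ++ st s) (s ++ st s) := by
    have := ρ.star' e2
    simpa using this
  -- p st s = p
  have e4 : ρ.r (s ++ st s ++ st s) (s ++ st s) :=
    ρ.trans' (ρ.mulR (st s) e1) e3
  -- p p = p
  have e5 : ρ.r ((s ++ st s) ++ (s ++ st s)) (s ++ st s) := by
    have h1 : ρ.r ((s ++ st s ++ s) ++ st s) ((s ++ st s) ++ st s) := ρ.mulR (st s) e2
    have h2 : (s ++ st s) ++ (s ++ st s) = (s ++ st s ++ s) ++ st s := by simp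
    rw [h2]
    exact ρ.trans' h1 e4
  -- s = p r, p s = p p r = p r = s
  have e6 : ρ.r ((s ++ st s) ++ s) s := by
    have h1 : ρ.r ((s ++ st s) ++ s) ((s ++ st s) ++ (s ++ st s ++ r)) := ρ.mulL _ hr
    have h2 : ρ.r (((s ++ st s) ++ (s ++ st s)) ++ r) ((s ++ st s) ++ r) := ρ.mulR r e5
    have h3 : (s ++ st s) ++ (s ++ st s ++ r) = ((s ++ st s) ++ (s ++ st s)) ++ r := by simp
    rw [h3] at h1
    exact ρ.trans' (ρ.trans' h1 h2) (ρ.symm' hr)
  exact ρ.trans' (ρ.symm' e6) e2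

end Pool.Agent.Helper75.CR
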