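import Pool.Agent.Helper84.CR.M_A
import Pool.Agent.Helper80.CR.M_B
import Pool.Agent.Helper64.CR.M_C
import Pool.Agent.Helper57.CR.M_D
import Pool.Agent.Helper60.CR.M_E
import Pool.Agent.Helper98.CR.M_F
import Pool.Agent.Helper13.CR.M_G
import Pool.Agent.Helper75.CR.M_H1
import Pool.Agent.Helper29.CR.M_H2
import Pool.Agent.Helper92.CR.M_H3
import Pool.Agent.Helper75.CR.M_H4
import Pool.Agent.Helper51.CR.M_I
import Pool.Agent.Helper76.CR.M_J
import Pool.Agent.Helper79.CR.M_K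
import Pool.Agent.Helper15.CR.M_L1
import Pool.Agent.Helper52.CR.M_L2
import Pool.Agent.Helper8.CR.M_L3
import Pool.Agent.Helper16.CR.M_L4
import Pool.Agent.Helper6.CR.M_M1
import Pool.Agent.Helper16.CR.M_M2
import Pool.Agent.Helper78.CR.M_M3
import Pool.Agent.Helper81.CR.M_M4
import Pool.Agent.Helper78.CR.M_M5
import Pool.Agent.Helper75.CR.M_N1
import Pool.Agent.Helper42.CR.M_N2
import Pool.Agent.Helper90.CR.M_N3
import Pool.Agent.Helper39.CR.M_N4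
import Pool.Agent.Helper47.CR.M_N5
import Pool.Agent.Helper37.CR.M_N6
import Pool.Agent.Helper26.CR.M_N7
import Pool.Agent.Helper12.CR.M_N8
import Pool.Agent.Helper86.CR.M_O1
import Pool.Agent.Helper62.CR.M_O2
import Pool.Agent.Helper37.CR.M_O3
import Pool.Agent.Helper38.CR.M_P1
import Pool.Agent.Helper18.CR.M_P2
import Pool.Agent.Helper86.CR.M_P3
import Pool.Agent.Helper24.CR.M_P4
import Pool.Agent.Helper91.CR.M_P5
import Pool.Agent.Helper75.CR.St3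

/-!
# Project CR (MP_265e56_al): assembly
-/

set_option autoImplicit false

namespace Pool.Agent.Helper75.CR

open Helper1.IM

theorem aA : Helper75.CR.StA := Pool.Agent.Helper84.CR.hA 

theorem aB : Helper75.CR.StB := Pool.Agent.Helper80.CR.hB 

theorem aC : Helper75.CR.StC := Pool.Agent.Helper64.CR.hC 

theorem aD : Helper75.CR.StD := Pool.Agent.Helper57.CR.hD 

theorem aE : Helper75.CR.StE := Pool.Agent.Helper60.CR.hE 

theorem aF : Helper75.CR.StF := Pool.Agent.Helper98.CR.hF 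

theorem aG : Helper75.CR.StG := Pool.Agent.Helper13.CR.hG 

theorem aH1 : Helper75.CR.StH1 := Pool.Agent.Helper75.CR.hH1 aD

theorem aH2 : Helper75.CR.StH2 := Pool.Agent.Helper29.CR.hH2 aB aC aD

theorem aH3 : Helper75.CR.StH3 := Pool.Agent.Helper92.CR.hH3 aA aB aC aD

theorem aH4 : Helper75.CR.StH4 := Pool.Agent.Helper75.CR.hH4 aA aE aF aG

theorem aI : Helper75.CR.StI := Pool.Agent.Helper51.CR.hI 

theorem aJ : Helper75.CR.StJ := Pool.Agent.Helper76.CR.hJ aI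

theorem aH : Helper75.CR.StH := asmH aH1 aH2 aH3 aH4

theorem aK : Helper75.CR.StK := Pool.Agent.Helper79.CR.hK aH aJ

theorem aL1 : Helper75.CR.StL1 := Pool.Agent.Helper15.CR.hL1 

theorem aL2 : Helper75.CR.StL2 := Pool.Agent.Helper52.CR.hL2 aL1

theorem aL3 : Helper75.CR.StL3 := Pool.Agent.Helper8.CR.hL3 aL2

theorem aL4 : Helper75.CR.StL4 := Pool.Agent.Helper16.CR.hL4 aL3

theorem aM1 : Helper75.CR.StM1 := Pool.Agent.Helper6.CR.hM1 

theorem aM2 : Helper75.CR.StM2 := Pool.Agent.Helper16.CR.hM2 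

theorem aM3 : Helper75.CR.StM3 := Pool.Agent.Helper78.CR.hM3 

theorem aM4 : Helper75.CR.StM4 := Pool.Agent.Helper81.CR.hM4 aL1 aL2 aL3 aM1 aM2

theorem aM5 : Helper75.CR.StM5 := Pool.Agent.Helper78.CR.hM5 aK aL3 aL4 aM1 aM2 aM3 aM4

theorem aN1 : Helper75.CR.StN1 := Pool.Agent.Helper75.CR.hN1 

theorem aN2 : Helper75.CR.StN2 := Pool.Agent.Helper42.CR.hN2 aL2 aM1 aN1

theorem aN3 : Helper75.CR.StN3 := Pool.Agent.Helper90.CR.hN3 aL1 aL2 aM1 aN1 aN2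

theorem aN4 : Helper75.CR.StN4 := Pool.Agent.Helper39.CR.hN4 aL2 aM1 aN1

theorem aN5 : Helper75.CR.StN5 := Pool.Agent.Helper47.CR.hN5 

theorem aN6 : Helper75.CR.StN6 := Pool.Agent.Helper37.CR.hN6 

theorem aN7 : Helper75.CR.StN7 := Pool.Agent.Helper26.CR.hN7 aK aL4 aN6

theorem aN8 : Helper75.CR.StN8 := Pool.Agent.Helper12.CR.hN8 aN4 aN5 aN7

theorem aO1 : Helper75.CR.StO1 := Pool.Agent.Helper86.CR.hO1 aL2 aM1 aN6

theorem aO2 : Helper75.CR.StO2 := Pool.Agent.Helper62.CR.hO2 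

theorem aO3 : Helper75.CR.StO3 := Pool.Agent.Helper37.CR.hO3 aL2 aM1 aO1 aO2

theorem aP1 : Helper75.CR.StP1 := Pool.Agent.Helper38.CR.hP1 

theorem aP2 : Helper75.CR.StP2 := Pool.Agent.Helper18.CR.hP2 

theorem aP3 : Helper75.CR.StP3 := Pool.Agent.Helper86.CR.hP3 

theorem aP4 : Helper75.CR.StP4 := Pool.Agent.Helper24.CR.hP4 

theorem aP5 : Helper75.CR.StP5 := Pool.Agent.Helper91.CR.hP5 

theorem main (V : Set InvSg) (hV : IsVar V) (h : (∀ A ∈ V, IsCR A) ∨ (SL3 ∈ V ∧ ¬ HasNull V)) :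
    (ModLat V → SL3 ∉ V ∨ Abs V) ∧ (SL3 ∉ V ∨ (SL4 ∉ V ∧ Abs V) → ModLat V) :=
  asmM aM5 aN3 aN8 aO3 aP1 aP2 aP3 aP4 aP5 V hV h

end Pool.Agent.Helper75.CR
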