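import Pool.Agent.Helper75.CR.St3
import Pool.Agent.Helper79.CR.M_Q1
import Pool.Agent.Helper62.CR.M_Q2

/-!
# Project CR (MP_265e56_al): varieties which contain `SL4`, under the condition (HR)

(HR): `a b c x x*` is in the right ideal generated by `a c b x x*`.  The proofs are adapted from the modules Q1 (helper79), Q2 (helper62), Q5 (helper64),
Q6 (helper8); the condition contains the condition (PR) suggested by helper1.
-/

set_option autoImplicit false

namespace Pool.Agent.Helper75.CR

open Helper1.IM Pool.Agent.Helper79.CR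

/-- `x y z t t* = x z y t t* r` for some word `r`. -/
def HRF (θ : FIC) : Prop := ∃ r, θ.r [X 0, X 1, X 2, X 3, Y 3] ([X 0, X 2, X 1, X 3, Y 3] ++ r)

/-- In every member of `V` the element `a b c x x*` is in the right ideal generated by `a c b x x*`. -/
def HRM (V : Set InvSg) : Prop := ∀ A ∈ V, ∀ a b c x : A.carrier, ∃ r : A.carrier,
  a * b * c * (x * Star.star x) = a * c * b * (x * Star.star x) * r

theorem prd_sc {u v : Wd} (h : SC u v) (hu : Prd u) : Prd v := by
  obtain ⟨i, h1, h2⟩ := hu
  exact ⟨i, (h _).1 h1, (h _).1 h2⟩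

theorem prd_st {u : Wd} (hu : Prd u) : Prd (st u) := by
  obtain ⟨i, h1, h2⟩ := hu
  refine ⟨i, ?_, ?_⟩
  · rw [Helper62.CR.Q2.mem_st]; exact h2
  · rw [Helper62.CR.Q2.mem_st]; exact h1

theorem prd_ne {u : Wd} (hu : Prd u) : u ≠ [] := by
  rintro rfl
  obtain ⟨i, h1, -⟩ := hu
  simp at h1

theorem exchH (θ : FIC) (hn : HRF θ) (p : Lt) (s t : Wd) (i : ℕ) (hs : s ≠ []) (ht : t ≠ []) :
    ∃ r, θ.r ([p] ++ s ++ t ++ [(i, false), (i, true)]) ([p] ++ t ++ s ++ [(i, false), (i, true)] ++ r) := by
  obtain ⟨r, hr⟩ := hn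
  let f : ℕ → Wd := fun j => if j = 0 then [p] else if j = 1 then s else if j = 2 then t else [(i, false)]
  have hf : ∀ j, f j ≠ [] := by
    intro j
    simp only [f]
    split
    · simp
    · split
      · exact hs
      · split
        · exact ht
        · simp
  have h1 := θ.sub' f hf hr
  refine ⟨sb f r, ?_⟩
  have e0 : f 0 = [p] := rfl
  have e1 : f 1 = s := rfl
  have e2 : f 2 = t := rfl
  have e3 : f 3 = [(i, false)] := rfl
  rw [sb_append] at h1
  simp only [sb_X, sb_Y, sb_nil, e0, e1, e2, e3, List.append_nil] at h1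
  have e4 : st [((i, false) : Lt)] = [(i, true)] := rfl
  rw [e4] at h1
  simpa [List.append_assoc] using h1

/-- Two paired words with the same signed letters and the same first letter. -/
theorem zeroH (hL2 : Pool.Agent.Helper75.CR.StL2) (hM1 : Pool.Agent.Helper75.CR.StM1) (θ : FIC) (hc : CRF θ) (hn : HRF θ) (p : Lt) (s t : Wd)
    (hp : Prd (p :: s)) (h : SC (p :: s) (p :: t)) : Rs θ (p :: s) (p :: t) := by
  by_cases hs : s = []
  · subst hs
    exact ext1 hL2 hM1 θ hc [p] t (by simp) (fun c hcm => (h c).2 (by simp [hcm]))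
  by_cases ht : t = []
  · subst ht
    exact (ext1 hL2 hM1 θ hc [p] s (by simp) (fun c hcm => (h c).1 (by simp [hcm]))).symm
  obtain ⟨i, hi1, hi2⟩ := hp
  have hE1 : Rs θ (p :: s) (p :: s ++ (t ++ [(i, false), (i, true)])) := by
    refine ext1 hL2 hM1 θ hc (p :: s) _ (by simp) ?_
    intro c hcm
    rcases List.mem_append.1 hcm with hcm | hcm
    · exact (h c).2 (by simp [hcm])
    · simp only [List.mem_cons, List.not_mem_nil, or_false] at hcm
      rcases hcm with rfl | rfl
      · exact hi1
      · exact hi2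
  have hE2 : Rs θ (p :: t) (p :: t ++ (s ++ [(i, false), (i, true)])) := by
    refine ext1 hL2 hM1 θ hc (p :: t) _ (by simp) ?_
    intro c hcm
    rcases List.mem_append.1 hcm with hcm | hcm
    · exact (h c).1 (by simp [hcm])
    · simp only [List.mem_cons, List.not_mem_nil, or_false] at hcm
      rcases hcm with rfl | rfl
      · exact (h _).1 hi1
      · exact (h _).1 hi2
  obtain ⟨r, hr⟩ := exchH θ hn p s t i hs ht
  obtain ⟨r', hr'⟩ := exchH θ hn p t s i ht hs
  have hm : Rs θ (p :: s ++ (t ++ [(i, false), (i, true)])) (p :: t ++ (s ++ [(i, false), (i, true)])) := by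
    refine ⟨⟨r', ?_⟩, r, ?_⟩
    · simpa using θ.symm' hr'
    · simpa using θ.symm' hr
  exact (hE1.trans hm).trans hE2.symm

/-- The first letter `p` of the first word occurs with one sign only. -/
theorem case2H (θ ρ : FIC) (p q : Lt) (s t : Wd)
    (h0 : ∀ (r : Lt) (x y : Wd), SC (r :: x) (p :: s) → SC (r :: y) (p :: s) → Rs θ (r :: x) (r :: y)) (hl : Le θ ρ) (hsp : SCP ρ)
    (hpq : p ≠ q) (hsc : SC (p :: s) (q :: t)) (hR : Rs ρ (p :: s) (q :: t)) (hp : fl p ∉ p :: s) :
    ∀ x y, SC x (p :: s) → SC y (p :: s) → Rs ρ x y := by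
  have claim : ∀ r ∈ p :: s, ∃ x' y', SC (r :: x') (p :: s) ∧ SC (q :: y') (p :: s) ∧ Rs ρ (r :: x') (q :: y') := by
    intro r hr
    by_cases hrp : r = p
    · subst hrp
      exact ⟨s, t, SC.rfl1 _, SC.symm1 hsc, hR⟩
    obtain ⟨⟨y, hy⟩, -⟩ := hR
    have hy1 : SC (p :: s ++ y) (q :: t) := hsp _ _ hy
    have hy2 : SC (p :: s ++ y) (p :: s) := SC.trans1 hy1 (SC.symm1 hsc)
    have hf1 : fl p ∉ p :: s ++ y := fun h => hp ((hy2 _).1 h)
    have hf2 : fl p ∉ q :: t := fun h => hp ((hsc _).2 h)
    let f : ℕ → Wd := fun i => if i = p.1 then (if p.2 then [fl r] else [r]) else [X i]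
    have hfn : ∀ i, f i ≠ [] := by
      intro i
      simp only [f]
      split
      · split <;> simp
      · simp
    have h1 := ρ.mulR [p] (ρ.sub' f hfn hy)
    rw [subst1 p r _ hf1, subst1 p r _ hf2] at h1
    have hgen : ∀ z, SC z (p :: s) → SC (z.map (fun c => if c = p then r else c) ++ [p]) (p :: s) := by
      intro z hz c
      constructor
      · intro hcm
        rcases List.mem_append.1 hcm with hcm | hcm
        · obtain ⟨d, hd, hdc⟩ := List.mem_map.1 hcm
          by_cases hdp : d = p
          · simp only [hdp, if_true] at hdc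
            rw [← hdc]; exact hr
          · simp only [hdp, if_false] at hdc
            rw [← hdc]; exact (hz d).1 hd
        · rw [List.mem_singleton.1 hcm]; simp
      · intro hcm
        by_cases hcp : c = p
        · rw [hcp]; simp
        · apply List.mem_append_left
          exact List.mem_map.2 ⟨c, (hz c).2 hcm, by simp [hcp]⟩
    have e1 : (p :: s ++ y).map (fun c => if c = p then r else c) ++ [p] =
        r :: ((s ++ y).map (fun c => if c = p then r else c) ++ [p]) := by simp
    have e2 : (q :: t).map (fun c => if c = p then r else c) ++ [p] =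
        q :: (t.map (fun c => if c = p then r else c) ++ [p]) := by simp [Ne.symm hpq]
    have g1 := hgen _ hy2
    have g2 := hgen _ (SC.symm1 hsc)
    rw [e1] at h1 g1
    rw [e2] at h1 g2
    exact ⟨_, _, g1, g2, ⟨⟨[], by simpa using h1⟩, [], by simpa using ρ.symm' h1⟩⟩
  intro x y hx hy
  cases x with
  | nil => exact absurd ((hx p).2 (by simp)) (by simp)
  | cons r x1 =>
    cases y with
    | nil => exact absurd ((hy p).2 (by simp)) (by simp)
    | cons r' y1 =>
      obtain ⟨a1, b1, g1, g2, g3⟩ := claim r ((hx r).1 (by simp))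
      obtain ⟨a2, b2, k1, k2, k3⟩ := claim r' ((hy r').1 (by simp))
      have m1 : Rs ρ (r :: x1) (r :: a1) := (h0 r x1 a1 hx g1).mono hl
      have m2 : Rs ρ (q :: b1) (q :: b2) := (h0 q b1 b2 g2 k2).mono hl
      have m3 : Rs ρ (r' :: a2) (r' :: y1) := (h0 r' a2 y1 k1 hy).mono hl
      exact (((m1.trans g3).trans m2).trans k3.symm).trans m3

/-- The dichotomy for paired words. -/
def StT1 : Prop := ∀ θ ρ : FIC, CRF θ → PII θ → HRF θ → Le θ ρ → SCP ρ → ∀ a w : Wd, Prd a → SC a w → Rs ρ a w →
  Rs θ a w ∨ ∀ x y, SC x a → SC y a → Rs ρ x y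

theorem hT1 (hL2 : Pool.Agent.Helper75.CR.StL2) (hM1 : Pool.Agent.Helper75.CR.StM1) (hN2 : Pool.Agent.Helper75.CR.StN2) :
    Pool.Agent.Helper75.CR.StT1 := by
  intro θ ρ hc hpi hn hl hsp a w hprd hsc hR
  cases a with
  | nil => exact absurd rfl (prd_ne hprd)
  | cons p s =>
    have h0 : ∀ (r : Lt) (x y : Wd), SC (r :: x) (p :: s) → SC (r :: y) (p :: s) → Rs θ (r :: x) (r :: y) :=
      fun r x y hx hy => zeroH hL2 hM1 θ hc hn r x y (prd_sc (SC.symm1 hx) hprd) (SC.trans1 hx (SC.symm1 hy))
    cases w with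
    | nil => exact absurd ((hsc p).1 (by simp)) (by simp)
    | cons q t =>
      by_cases hpq : p = q
      · subst hpq
        exact Or.inl (h0 p s t (SC.rfl1 _) (SC.symm1 hsc))
      by_cases hfp : fl p ∈ p :: s
      · by_cases hfq : fl q ∈ p :: s
        · left
          have hq : q ∈ p :: s := (hsc q).2 (by simp)
          have h1 : θ.r [p, fl p, q, fl q] [q, fl q, p, fl p] := by
            apply hN2 θ hc hpi
            · simp
            · simp
            · intro c hcm
              simp only [List.mem_cons, List.not_mem_nil, or_false] at hcm ⊢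
              rcases hcm with rfl | rfl | rfl | rfl <;> simp
            · intro c hcm
              simp only [List.mem_cons, List.not_mem_nil, or_false] at hcm ⊢
              rcases hcm with rfl | rfl | rfl | rfl <;> simp
            · intro c
              simp only [List.mem_cons, List.not_mem_nil, or_false]
              tauto
          have h2 := θ.mulR (p :: s) h1
          have s1 : SC (p :: s) ([p, fl p, q, fl q] ++ (p :: s)) := by
            intro c
            constructor
            · intro hcm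
              exact List.mem_append_right _ hcm
            · intro hcm
              rcases List.mem_append.1 hcm with hcm | hcm
              · simp only [List.mem_cons, List.not_mem_nil, or_false] at hcm
                rcases hcm with rfl | rfl | rfl | rfl
                · simp
                · exact hfp
                · exact hq
                · exact hfq
              · exact hcm
          have s2 : SC (q :: t) ([q, fl q, p, fl p] ++ (p :: s)) := by
            intro c
            constructor
            · intro hcm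
              exact List.mem_append_right _ ((hsc c).2 hcm)
            · intro hcm
              apply (hsc c).1
              rcases List.mem_append.1 hcm with hcm | hcm
              · simp only [List.mem_cons, List.not_mem_nil, or_false] at hcm
                rcases hcm with rfl | rfl | rfl | rfl
                · exact hq
                · exact hfq
                · simp
                · exact hfp
              · exact hcm
          have r1 : Rs θ (p :: s) ([p, fl p, q, fl q] ++ (p :: s)) := h0 p s _ (SC.rfl1 _) (SC.symm1 s1)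
          have r2 : Rs θ (q :: t) ([q, fl q, p, fl p] ++ (p :: s)) :=
            h0 q t _ (SC.symm1 hsc) (SC.symm1 (SC.trans1 hsc s2))
          have r3 : Rs θ ([p, fl p, q, fl q] ++ (p :: s)) ([q, fl q, p, fl p] ++ (p :: s)) :=
            ⟨⟨[], by simpa using h2⟩, [], by simpa using θ.symm' h2⟩
          exact (r1.trans r3).trans r2.symm
        · right
          intro x y hx hy
          have hfq' : fl q ∉ q :: t := fun h => hfq ((hsc _).2 h)
          exact case2H θ ρ q p t s (fun r x' y' hx' hy' => h0 r x' y' (SC.trans1 hx' (SC.symm1 hsc)) (SC.trans1 hy' (SC.symm1 hsc)))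
            hl hsp (Ne.symm hpq) (SC.symm1 hsc) hR.symm hfq' x y (SC.trans1 hx hsc) (SC.trans1 hy hsc)
      · right
        exact case2H θ ρ p q s t h0 hl hsp hpq hsc hR hfp

/-- `R`-permutability on paired words. -/
theorem permH (hT1 : StT1) {θ α β : FIC} (hθ : CRF θ) (hP : PII θ) (hN : HRF θ) (hα : Le θ α)
    (hβ : Le θ β) (hsα : SCP α) {a w b : Wd} (ha : Prd a) (haw : SC a w) (hwb : SC w b)
    (h1 : Rs α a w) (h2 : Rs β w b) : ∃ w', SC w' a ∧ Rs β a w' ∧ Rs α w' b := by
  rcases hT1 θ α hθ hP hN hα hsα a w ha haw h1 with h | h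
  · exact ⟨b, SC.symm1 (SC.trans1 haw hwb), (h.mono hβ).trans h2, Rs.rfl' α b⟩
  · exact ⟨a, SC.rfl1 a, Rs.rfl' β a, h a b (SC.rfl1 a) (SC.symm1 (SC.trans1 haw hwb))⟩

/-- Congruences preserving the signed letters permute on paired words. -/
def StT2 : Prop := ∀ θ α β : FIC, CRF θ → PII θ → HRF θ → Le θ α → Le θ β → SCP α → SCP β → ∀ u w v : Wd, Prd u → SC u w → SC w v →
  α.r u w → β.r w v → ∃ w', SC u w' ∧ β.r u w' ∧ α.r w' v

open Helper62.CR.Q2 in
theorem hT2 (hI : Pool.Agent.Helper75.CR.StI) (hL2 : Pool.Agent.Helper75.CR.StL2)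
    (hM1 : Pool.Agent.Helper75.CR.StM1) (hT1 : Pool.Agent.Helper75.CR.StT1) :
    Pool.Agent.Helper75.CR.StT2 := by
  intro θ α β hθ hP hN hα hβ hsα hsβ u w v hprd huw hwv h1 h2
  have hu : u ≠ [] := prd_ne hprd
  have hsθ : SCP θ := fun x y h => hsα x y (hα x y h)
  have prdT : ∀ a : Helper62.CR.Q2.TT u, Prd a.1 := fun a => prd_sc (SC.symm1 a.2) hprd
  obtain ⟨w', h3, h4⟩ := hI (Helper62.CR.Q2.TT u) (cT θ u) (cT α u) (cT β u)
    (Con.le_def.2 fun {x y} h => hα _ _ h) (Con.le_def.2 fun {x y} h => hβ _ _ h)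
    (hyp1 hL2 hM1 hθ hsθ hu) (hyp2 hL2 hM1 hθ hsθ hu)
    (by
      intro a w b h1 h2
      obtain ⟨w', h0, h3, h4⟩ := permH hT1 hθ hP hN hα hβ hsα (prdT a)
        (sc_trans a.2 (sc_symm w.2)) (sc_trans w.2 (sc_symm b.2)) (rr_rs α h1) (rr_rs β h2)
      exact ⟨⟨w', sc_trans h0 a.2⟩, rs_rr hL2 hM1 hθ hsθ hβ hsβ hu h3,
        rs_rr hL2 hM1 hθ hsθ hα hsα hu h4⟩)
    (by
      intro a w b h1 h2
      obtain ⟨w', h0, h3, h4⟩ := permH hT1 hθ hP hN hα hβ hsα
        (prd_st (prdT a)) (sc_st (sc_trans a.2 (sc_symm w.2)))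
        (sc_st (sc_trans w.2 (sc_symm b.2))) (ll_rs α h1) (ll_rs β h2)
      have h5 : SC (st w') a.1 := by
        have := sc_st h0
        rwa [st_st] at this
      refine ⟨⟨st w', sc_trans h5 a.2⟩, rs_ll hL2 hM1 hθ hsθ hβ hsβ hu ?_,
        rs_ll hL2 hM1 hθ hsθ hα hsα hu ?_⟩
      · simpa using h3
      · simpa using h4)
    ⟨u, sc_refl u⟩ ⟨w, sc_symm huw⟩ ⟨v, sc_symm (sc_trans huw hwv)⟩ h1 h2
  exact ⟨w'.1, sc_symm w'.2, h3, h4⟩

/-- The case `SL4 ∈ V` under (HR). -/
def StT5 : Prop := ∀ θ : FIC, CRF θ → PII θ → SLE θ → HRF θ → ModAt θ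

theorem hT5 (hN7 : Helper75.CR.StN7) (hT2 : Helper75.CR.StT2) (hQ3 : Helper75.CR.StQ3) (hQ4 : Helper75.CR.StQ4) :
    Helper75.CR.StT5 := by
  intro θ hc hp hs hn α β γ hα hβ hγ hαγ u v hj hg
  have dich : ∀ ρ : FIC, Le θ ρ → (Helper75.CR.P3 ρ ∨ SCP ρ) := by
    intro ρ hρ
    by_cases h : SCP ρ
    · exact Or.inr h
    · left
      unfold SCP at h
      push Not at h
      obtain ⟨a, b, hab, hnab⟩ := h
      exact hQ3 ρ (hc.mono hρ) (hp.mono hρ) a b hab hnab
  have dα := dich α hα
  have dβ := dich β hβ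
  by_cases h3 : Helper75.CR.P3 α ∨ Helper75.CR.P3 β
  · exact hQ4 θ α β γ hc hp hs hα hβ hαγ dα dβ h3 u v hj hg
  · push Not at h3
    have sα : SCP α := dα.resolve_left h3.1
    have sβ : SCP β := dβ.resolve_left h3.2
    by_cases hu : u = []
    · have hall : ∀ v, Jn α β u v → SC u v := by
        intro v hv
        induction hv with
        | refl => exact fun a => Iff.rfl
        | tail _ hstep ih =>
          rcases hstep with h | h
          · exact fun a => (ih a).trans (sα _ _ h a)
          · exact fun a => (ih a).trans (sβ _ _ h a)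
      have huv := hall v hj
      have hv : v = [] := by
        rw [List.eq_nil_iff_forall_not_mem]
        intro a ha
        have := (huv a).mpr ha
        rw [hu] at this
        simp at this
      rw [hu, hv]
      exact Relation.ReflTransGen.refl
    · have key : ∀ v, Jn α β u v → ∃ w, SC u w ∧ α.r u w ∧ β.r w v := by
        intro v hv
        induction hv with
        | refl => exact ⟨u, fun a => Iff.rfl, α.refl' u, β.refl' u⟩
        | @tail b c _ hstep ih =>
          obtain ⟨w, h1, h2, h3⟩ := ih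
          rcases hstep with h | h
          · have hw : w ≠ [] := by
              intro hw
              apply hu
              rw [List.eq_nil_iff_forall_not_mem]
              intro a ha
              have := (h1 a).mp ha
              rw [hw] at this
              simp at this
            by_cases hpw : Prd w
            · obtain ⟨w', k1, k2, k3⟩ := hT2 θ β α hc hp hn hβ hα sβ sα w b c hpw
                (sβ _ _ h3) (sα _ _ h) h3 h
              exact ⟨w', fun a => (h1 a).trans (k1 a), α.trans' h2 k2, k3⟩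
            · obtain ⟨w', k1, k2, k3⟩ := hN7 θ hc hs β α hβ hα w b c hw hpw
                (sβ _ _ h3) (sα _ _ h) h3 h
              exact ⟨w', fun a => (h1 a).trans (k1 a), α.trans' h2 k2, k3⟩
          · exact ⟨w, h1, h2, β.trans' h3 h⟩
      obtain ⟨w, _, h2, h3⟩ := key v hj
      have h4 : γ.r w v := γ.trans' (γ.symm' (hαγ _ _ h2)) hg
      exact Relation.ReflTransGen.head (Or.inl h2) (Relation.ReflTransGen.single (Or.inr ⟨h3, h4⟩))

theorem hT6 (θ : FIC) (h : HRM (Md θ)) : HRF θ := by
  have ne : ∀ i : ℕ, ([X i] : Wd) ≠ [] := fun i => by simp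
  obtain ⟨r, hr⟩ := h (FA θ) (FA_mem θ) (clFA θ [X 0] (ne 0)) (clFA θ [X 1] (ne 1))
    (clFA θ [X 2] (ne 2)) (clFA θ [X 3] (ne 3))
  obtain ⟨w, hw, rfl⟩ := clFA_surj θ r
  rw [clFA_star, clFA_mul, clFA_mul, clFA_mul, clFA_mul, clFA_mul, clFA_mul, clFA_mul, clFA_mul, clFA_eq] at hr
  exact ⟨w, by simpa [X, Y, st, fl] using hr⟩

end Pool.Agent.Helper75.CR
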