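import Pool.Agent.Helper75.CR.St3
import Pool.Agent.Helper90.CR.M_N3

/-!
# Project CR (MP_265e56_al): module Q3, adapted from module N3 (helper90)
-/

set_option autoImplicit false

namespace Pool.Agent.Helper75.CR

open Helper1.IM Pool.Agent.Helper90.CR

theorem hQ3 (hL2 : StL2) (hM1 : Pool.Agent.Helper75.CR.StM1) (hN1 : StN1) (hN2 : StN2) : StQ3 := by
  intro θ hθ hP u0 v0 huv0 hsc0
  have hC : CRW (toP θ) := (hM1 θ hθ).1
  have hstar : Jl (toP θ) [X 0, Y 0, X 1] [Y 1] := by
    have huv := huv0
    have hsc := hsc0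
    unfold SC at hsc
    push Not at hsc
    obtain ⟨a, ha⟩ := hsc
    rcases ha with ⟨h1, h2⟩ | ⟨h1, h2⟩
    · exact key hL2 θ hC v0 u0 a (θ.symm' huv) h1 h2
    · exact key hL2 θ hC u0 v0 a huv h2 h1
  -- letters of the star
  have hlet : ∀ s : Wd, Prd s → ∀ c : Lt, fl c ∈ s → Jl (toP θ) s [c] := by
    intro s hs c hc
    obtain ⟨l, hl1, hl2⟩ := hs
    have hs0 : s ≠ [] := List.ne_nil_of_mem hl1
    have h1 : Jl (toP θ) s [(l, false), (l, true), fl c] := by
      apply J_letters hL2 θ hC hs0
      · intro a ha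
        simp only [List.mem_cons, List.not_mem_nil, or_false] at ha
        rcases ha with rfl | rfl | rfl
        · exact hl1
        · exact hl2
        · exact hc
      · simp
    let g : ℕ → Wd := fun i => if i = 0 then [(l, false)] else [fl c]
    have hg : ∀ i, g i ≠ [] := by
      intro i
      simp only [g]
      split_ifs <;> simp
    have h2 := J_sub θ g hg hstar
    have h3 : sb g [X 0, Y 0, X 1] = [(l, false), (l, true), fl c] := by
      simp [g, st, fl]
    have h4 : sb g [Y 1] = [c] := by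
      simp [g, st]
    rw [h3, h4] at h2
    exact J_trans θ h1 h2
  have hss : ∀ s : Wd, Prd s → θ.r s (s ++ st s) := by
    intro s hs
    have hs0 : s ≠ [] := by
      obtain ⟨l, hl1, _⟩ := hs
      exact List.ne_nil_of_mem hl1
    have h1 := (hL2 Bool _ (toP θ) hC s (st s) hs0
      (fun c hc => hlet s hs c (fl_mem_st.1 hc))).1
    exact hN1 θ hP s hs0 h1
  intro s t hs ht hst
  have hs0 : s ≠ [] := by
    obtain ⟨l, hl1, _⟩ := hs
    exact List.ne_nil_of_mem hl1
  have ht0 : t ≠ [] := by
    obtain ⟨l, hl1, _⟩ := ht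
    exact List.ne_nil_of_mem hl1
  have hmem : ∀ w : Wd, ∀ c : Lt, c ∈ w ++ st w ↔ c.1 ∈ ct w := by
    intro w c
    rw [List.mem_append, fl_mem_st, mem_ct]
    constructor
    · rintro (h | h)
      · exact ⟨c.2, h⟩
      · exact ⟨!c.2, h⟩
    · rintro ⟨b, hb⟩
      by_cases hbc : b = c.2
      · left
        rw [hbc] at hb
        exact hb
      · right
        have : b = !c.2 := by
          cases b <;> cases hc2 : c.2 <;> simp_all
        rw [this] at hb
        exact hb
  have hclosed : ∀ w : Wd, ∀ a ∈ w ++ st w, fl a ∈ w ++ st w := by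
    intro w a ha
    rw [hmem] at ha ⊢
    exact ha
  have h1 : θ.r (s ++ st s) (t ++ st t) := by
    apply hN2 θ hθ hP
    · simp [hs0]
    · simp [ht0]
    · exact hclosed s
    · exact hclosed t
    · intro a
      rw [hmem, hmem, hst]
  exact θ.trans' (hss s hs) (θ.trans' h1 (θ.symm' (hss t ht)))

end Pool.Agent.Helper75.CR
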