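import Pool.Agent.Helper75.CR.All
import Pool.Agent.Helper75.CR.HR
import Pool.Agent.Helper1.CR.M_R1
import Pool.Agent.Helper6.CR.M_Q4
import Pool.Agent.Helper75.CR.M_Q3

/-!
# Project CR (MP_265e56_al): assembly of the strong form
-/

set_option autoImplicit false

namespace Pool.Agent.Helper75.CR

open Helper1.IM

/-- Every element `a` of every member of `V` satisfies `a^(m+1) = a^(m+n+1)` for some `m, n` with `n ≥ 1` (`a^(k+1)` is written `a * (a * (... a))`). -/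
def Per (V : Set InvSg) : Prop := ∀ A ∈ V, ∀ a : A.carrier, ∃ m n : ℕ, 1 ≤ n ∧ (fun b => a * b)^[m] a = (fun b => a * b)^[m + n] a

theorem per_it (θ : FIC) (k : ℕ) : (fun b => clFA θ [X 0] (by simp) * b)^[k] (clFA θ [X 0] (by simp)) =
    clFA θ (List.replicate (k + 1) (X 0)) (by simp) := by
  induction k with
  | zero => rfl
  | succ k ih =>
    rw [Function.iterate_succ_apply', ih, clFA_mul]
    rfl

theorem per_fic (θ : FIC) (h : Per (Md θ)) :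
    ∃ m n : ℕ, 1 ≤ m ∧ 1 ≤ n ∧ θ.r (List.replicate m (X 0)) (List.replicate (m + n) (X 0)) := by
  obtain ⟨m, n, hn, hr⟩ := h (FA θ) (FA_mem θ) (clFA θ [X 0] (by simp))
  rw [per_it, per_it, clFA_eq] at hr
  refine ⟨m + 1, n, by omega, hn, ?_⟩
  have : m + 1 + n = m + n + 1 := by omega
  rw [this]
  exact hr

theorem aQ4 : Helper75.CR.StQ4 := Pool.Agent.Helper6.CR.hQ4 aN4 aN5 aN7

theorem aQ3 : Helper75.CR.StQ3 := Pool.Agent.Helper75.CR.hQ3 aL2 aM1 aN1 aN2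

/-- The strong form of the main theorem. -/
theorem main2 (V : Set InvSg) (hV : IsVar V)
    (h : (∀ A ∈ V, IsCR A) ∨ (¬ HasNull V ∧ (SL3 ∈ V ∨ (B2 ∉ V ∧ Per V)))) :
    (ModLat V → SL3 ∉ V ∨ Abs V) ∧ (SL3 ∉ V ∨ (Abs V ∧ (SL4 ∉ V ∨ HRM V)) → ModLat V) := by
  obtain ⟨θ, rfl⟩ := fV3'.2 V hV
  have hc : CRF θ := by
    rcases h with h | ⟨hN, h | ⟨hB, hP⟩⟩
    · exact aP1 θ h
    · exact hP6 θ hN ((aP2 θ).1 h)
    · exact hR1 θ hN hB (per_fic θ hP)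
  rw [fV5' θ]
  have key : SL3 ∉ Md θ → ModAt θ := fun h => aM5 θ hc (aP5 θ hc (fun h' => h ((aP2 θ).2 h')))
  constructor
  · intro hm
    by_cases h3 : SL3 ∈ Md θ
    · exact Or.inr ((aP4 θ).2 (aO3 θ hc ((aP2 θ).1 h3) hm))
    · exact Or.inl h3
  · rintro (h | ⟨hab, h4⟩)
    · exact key h
    · by_cases h3 : SL3 ∈ Md θ
      · have hs := (aP2 θ).1 h3
        have hp := (aP4 θ).1 hab
        rcases h4 with h4 | h4
        · exact aN8 θ hc hp hs (aN3 θ hc hp hs (fun h' => h4 ((aP3 θ).2 h')))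
        · exact hT5 aN7 (hT2 aI aL2 aM1 (hT1 aL2 aM1 aN2)) aQ3 aQ4 θ hc hp hs (hT6 θ h4)
      · exact key h3

end Pool.Agent.Helper75.CR
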