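import Pool.Agent.Helper75.CR.St2

/-!
# Project CR: assembly from the module statements
-/

set_option autoImplicit false

namespace Pool.Agent.Helper75.CR

open Helper1.IM

theorem asmH (hH1 : StH1) (hH2 : StH2) (hH3 : StH3) (hH4 : StH4) : StH := by
  intro B S θ hθ
  refine ⟨hH1 B S θ hθ, ?_⟩
  intro m hm hPM α β ha hb hca hcb u w v hcard h1 h2
  by_cases hA : AA α
  · by_cases hB : AA β
    · exact hH2 B S θ hθ α β ha hb hca hcb hA hB u w v h1 h2
    · exact hH3 B S θ hθ α β ha hb hca hcb hA hB u w v h1 h2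
  · by_cases hB : AA β
    · obtain ⟨w', h3, h4⟩ := hH3 B S θ hθ β α hb ha hcb hca hB hA v w u h2.symm h1.symm
      exact ⟨w', h4.symm, h3.symm⟩
    · exact hH4 B S θ m hθ hm hPM α β ha hb hca hcb hA hB u w v hcard h1 h2

theorem fV3' : StV3 := hV3 hV1

theorem fV4' : StV4 := hV4 (hV2 hV1) fV3'

theorem fV5' : StV5 := hV5 fV3' fV4'

/-- The main theorem from the two sufficiency statements, the necessity statement and the translation statements. -/
theorem asm (hM5 : StM5) (hN3 : StN3) (hN8 : StN8) (hO3 : StO3) (hP1 : StP1) (hP2 : StP2) (hP3 : StP3) (hP4 : StP4) (hP5 : StP5)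
    (V : Set InvSg) (hV : IsVar V) (hCR : ∀ A ∈ V, IsCR A) :
    (ModLat V → SL3 ∉ V ∨ Abs V) ∧ (SL3 ∉ V ∨ (SL4 ∉ V ∧ Abs V) → ModLat V) := by
  obtain ⟨θ, rfl⟩ := fV3'.2 V hV
  have hc : CRF θ := hP1 θ hCR
  rw [fV5' θ]
  have key : SL3 ∉ Md θ → ModAt θ := fun h => hM5 θ hc (hP5 θ hc (fun h' => h ((hP2 θ).2 h')))
  constructor
  · intro hm
    by_cases h3 : SL3 ∈ Md θ
    · exact Or.inr ((hP4 θ).2 (hO3 θ hc ((hP2 θ).1 h3) hm))
    · exact Or.inl h3
  · rintro (h | ⟨h4, hab⟩)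
    · exact key h
    · by_cases h3 : SL3 ∈ Md θ
      · have hs := (hP2 θ).1 h3
        have hp := (hP4 θ).1 hab
        exact hN8 θ hc hp hs (hN3 θ hc hp hs (fun h' => h4 ((hP3 θ).2 h')))
      · exact key h3

end Pool.Agent.Helper75.CR
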