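import Pool.Agent.Helper1.IM.M_V1
import Pool.Agent.Helper1.IM.M_V2
import Pool.Agent.Helper1.IM.M_V3
import Pool.Agent.Helper1.IM.M_V4
import Pool.Agent.Helper1.IM.M_V5

/-!
# Project CR (MP_265e56_al): generic words with signs, invariant congruences, basic lemmas

Letters are pairs `(i, b)`: `i : ℕ` is the index and `b : B` the sign.  The two cases used are `B = Bool` (words of the free involution
semigroup, `(i, false) = x_i`, `(i, true) = x_i*`) and `B = Unit` (words of the free semigroup).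
-/

set_option autoImplicit false

namespace Pool.Agent.Helper75.CR

open Helper1.IM

/-- Words over letters `(i, b)`. -/
abbrev Wo (B : Type) := List (ℕ × B)

variable {B : Type}

/-- Content: the set of indices of the letters of a word. -/
def cn (u : Wo B) : Finset ℕ := (u.map Prod.fst).toFinset

/-- Sign data: `sg b w` is the value of the letter `(i, b)` if `x_i` has the value `w`; `o` is the plain sign. -/
structure Sgn (B : Type) where
  sg : B → Wo B → Wo B
  o : B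
  nil : ∀ b, sg b [] = []
  cng : ∀ b w, cn (sg b w) = cn w
  sur : ∀ b w, w ≠ [] → ∃ w', w' ≠ [] ∧ sg b w' = w
  lit : ∀ b i, sg b [(i, o)] = [(i, b)]
  two : ∀ b1 b2 b3 b4 : B, b1 ≠ b2 → b3 = b4 ∨ (b3 = b1 ∧ b4 = b2) ∨ (b3 = b2 ∧ b4 = b1)

/-- Substitution `x_i ↦ f i`. -/
def sB (S : Sgn B) (f : ℕ → Wo B) (w : Wo B) : Wo B := w.flatMap (fun a => S.sg a.2 (f a.1))

/-- Congruences on words invariant under substitutions (`*` is not required to be respected). -/
structure Pg (S : Sgn B) where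
  r : Wo B → Wo B → Prop
  refl' : ∀ u, r u u
  symm' : ∀ {u v}, r u v → r v u
  trans' : ∀ {u v w}, r u v → r v w → r u w
  mul' : ∀ {u v} (a b : Wo B), r u v → r (a ++ u ++ b) (a ++ v ++ b)
  sub' : ∀ {u v} (f : ℕ → Wo B), (∀ i, f i ≠ []) → r u v → r (sB S f u) (sB S f v)

/-- Inclusion. -/
def LeP {S : Sgn B} (α β : Pg S) : Prop := ∀ u v, α.r u v → β.r u v

/-- Content preserving congruences. -/
def CP {S : Sgn B} (ρ : Pg S) : Prop := ∀ u v, ρ.r u v → cn u = cn v

/-- `R`-relation modulo `ρ` for nonempty words of the same content: each word is `ρ`-equal to an extension to the right of the other. -/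
def Er {S : Sgn B} (ρ : Pg S) (u v : Wo B) : Prop :=
  u ≠ [] ∧ cn u = cn v ∧ (∃ p, ρ.r (u ++ p) v) ∧ ∃ q, ρ.r (v ++ q) u

/-- Base congruences: content preserving; `u` is equal to an extension of `ut` to the right (and of `tu` to the left) if the content of `t` is
contained in the content of `u`; every word has a sign invariant idempotent extension of the same content on either side. -/
structure Bs (S : Sgn B) (θ : Pg S) : Prop where
  cp : CP θ
  h1 : ∀ u t : Wo B, u ≠ [] → cn t ⊆ cn u → ∃ s, θ.r u (u ++ t ++ s)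
  h1' : ∀ u t : Wo B, u ≠ [] → cn t ⊆ cn u → ∃ s, θ.r u (s ++ t ++ u)
  h2 : ∀ w : Wo B, w ≠ [] → ∃ p q, θ.r p (w ++ q) ∧ θ.r (p ++ p) p ∧ (∀ b, θ.r (S.sg b p) p) ∧ cn p = cn w
  h2' : ∀ w : Wo B, w ≠ [] → ∃ p q, θ.r p (q ++ w) ∧ θ.r (p ++ p) p ∧ (∀ b, θ.r (S.sg b p) p) ∧ cn p = cn w

/-! ## Words -/

theorem mem_cn {i : ℕ} {u : Wo B} : i ∈ cn u ↔ ∃ b, (i, b) ∈ u := by simp [cn]
@[simp] theorem cn_nil : cn ([] : Wo B) = ∅ := rfl
@[simp] theorem cn_cons (a : ℕ × B) (u : Wo B) : cn (a :: u) = insert a.1 (cn u) := by simp [cn]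
@[simp] theorem cn_append (u v : Wo B) : cn (u ++ v) = cn u ∪ cn v := by ext i; simp [cn]
theorem cn_eq_empty {u : Wo B} : cn u = ∅ ↔ u = [] := by
  cases u with
  | nil => simp
  | cons a u => simp
theorem ne_nil_of_cn {u v : Wo B} (h : cn u = cn v) (hu : u ≠ []) : v ≠ [] := fun hv => hu (by
  rw [hv] at h; exact cn_eq_empty.1 h)
theorem cn_reverse (u : Wo B) : cn u.reverse = cn u := by ext i; simp [cn]

theorem sg_ne (S : Sgn B) (b : B) {w : Wo B} (hw : w ≠ []) : S.sg b w ≠ [] :=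
  ne_nil_of_cn (S.cng b w).symm hw

@[simp] theorem sB_nil (S : Sgn B) (f : ℕ → Wo B) : sB S f [] = [] := rfl
@[simp] theorem sB_append (S : Sgn B) (f : ℕ → Wo B) (u v : Wo B) : sB S f (u ++ v) = sB S f u ++ sB S f v := by simp [sB]
theorem sB_cons (S : Sgn B) (f : ℕ → Wo B) (a : ℕ × B) (u : Wo B) : sB S f (a :: u) = S.sg a.2 (f a.1) ++ sB S f u := by
  simp [sB]
theorem sB_single (S : Sgn B) (f : ℕ → Wo B) (a : ℕ × B) : sB S f [a] = S.sg a.2 (f a.1) := by simp [sB]
theorem sB_congr (S : Sgn B) (f g : ℕ → Wo B) (u : Wo B) (h : ∀ i ∈ cn u, f i = g i) : sB S f u = sB S g u := by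
  induction u with
  | nil => rfl
  | cons a u ih =>
    rw [sB_cons, sB_cons, ih (fun i hi => h i (by simp [hi])), h a.1 (by simp)]
theorem sB_id (S : Sgn B) (u : Wo B) : sB S (fun i => [(i, S.o)]) u = u := by
  induction u with
  | nil => rfl
  | cons a u ih => rw [sB_cons, ih, S.lit]; rfl
theorem sB_fix (S : Sgn B) (f : ℕ → Wo B) (u : Wo B) (h : ∀ i ∈ cn u, f i = [(i, S.o)]) : sB S f u = u := by
  rw [sB_congr S f (fun i => [(i, S.o)]) u h, sB_id]
theorem cn_sB (S : Sgn B) (f : ℕ → Wo B) (u : Wo B) : cn (sB S f u) = (cn u).biUnion (fun i => cn (f i)) := by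
  induction u with
  | nil => rfl
  | cons a u ih => rw [sB_cons, cn_append, ih, S.cng, cn_cons, Finset.biUnion_insert]
theorem cn_sB_congr (S : Sgn B) (f : ℕ → Wo B) {u v : Wo B} (h : cn u = cn v) : cn (sB S f u) = cn (sB S f v) := by
  rw [cn_sB, cn_sB, h]
theorem sB_ne (S : Sgn B) (f : ℕ → Wo B) (hf : ∀ i, f i ≠ []) {u : Wo B} (hu : u ≠ []) : sB S f u ≠ [] := by
  cases u with
  | nil => exact absurd rfl hu
  | cons a u =>
    rw [sB_cons]
    simp [sg_ne S a.2 (hf a.1)]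
/-- A substitution all of whose images have content `C`, applied to a nonempty word, gives a word of content `C`. -/
theorem cn_sB_const (S : Sgn B) (f : ℕ → Wo B) (C : Finset ℕ) {u : Wo B} (hu : u ≠ []) (h : ∀ i ∈ cn u, cn (f i) = C) :
    cn (sB S f u) = C := by
  rw [cn_sB]
  ext i
  simp only [Finset.mem_biUnion]
  constructor
  · rintro ⟨j, hj, hi⟩
    rw [h j hj] at hi
    exact hi
  · intro hi
    cases u with
    | nil => exact absurd rfl hu
    | cons a u => exact ⟨a.1, by simp, by rw [h a.1 (by simp)]; exact hi⟩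

/-! ## Congruences -/

section
variable {S : Sgn B}

theorem Pg.rfl' (ρ : Pg S) {u : Wo B} : ρ.r u u := ρ.refl' u
theorem Pg.mulL (ρ : Pg S) {u v : Wo B} (a : Wo B) (h : ρ.r u v) : ρ.r (a ++ u) (a ++ v) := by
  simpa using ρ.mul' a [] h
theorem Pg.mulR (ρ : Pg S) {u v : Wo B} (b : Wo B) (h : ρ.r u v) : ρ.r (u ++ b) (v ++ b) := by
  simpa using ρ.mul' [] b h
theorem Pg.mul2 (ρ : Pg S) {u v u' v' : Wo B} (h : ρ.r u v) (h' : ρ.r u' v') : ρ.r (u ++ u') (v ++ v') :=
  ρ.trans' (ρ.mulR u' h) (ρ.mulL v h')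
theorem Pg.of_eq (ρ : Pg S) {u v : Wo B} (h : u = v) : ρ.r u v := h ▸ ρ.refl' u
/-- Congruent values of the letters give congruent values of a word. -/
theorem Pg.sBrel (ρ : Pg S) (f g : ℕ → Wo B) (u : Wo B) (h : ∀ a ∈ u, ρ.r (S.sg a.2 (f a.1)) (S.sg a.2 (g a.1))) :
    ρ.r (sB S f u) (sB S g u) := by
  induction u with
  | nil => exact ρ.refl' _
  | cons a u ih =>
    rw [sB_cons, sB_cons]
    exact ρ.mul2 (h a (by simp)) (ih (fun b hb => h b (by simp [hb])))

/-! ## The relation `Er` -/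

theorem Er.mono {ρ σ : Pg S} (hρσ : LeP ρ σ) {u v : Wo B} (h : Er ρ u v) : Er σ u v := by
  obtain ⟨h0, h1, ⟨p, hp⟩, q, hq⟩ := h
  exact ⟨h0, h1, ⟨p, hρσ _ _ hp⟩, q, hρσ _ _ hq⟩
theorem Er.rfl' (ρ : Pg S) {u : Wo B} (hu : u ≠ []) : Er ρ u u :=
  ⟨hu, rfl, ⟨[], ρ.of_eq (by simp)⟩, [], ρ.of_eq (by simp)⟩
theorem Er.ne {ρ : Pg S} {u v : Wo B} (h : Er ρ u v) : u ≠ [] := h.1
theorem Er.ne2 {ρ : Pg S} {u v : Wo B} (h : Er ρ u v) : v ≠ [] := ne_nil_of_cn h.2.1 h.1
theorem Er.cn {ρ : Pg S} {u v : Wo B} (h : Er ρ u v) : CR.cn u = CR.cn v := h.2.1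
theorem Er.symm {ρ : Pg S} {u v : Wo B} (h : Er ρ u v) : Er ρ v u := ⟨h.ne2, h.2.1.symm, h.2.2.2, h.2.2.1⟩
theorem Er.trans {ρ : Pg S} {u v w : Wo B} (h : Er ρ u v) (h' : Er ρ v w) : Er ρ u w := by
  obtain ⟨h0, h1, ⟨p, hp⟩, q, hq⟩ := h
  obtain ⟨_, h1', ⟨p', hp'⟩, q', hq'⟩ := h'
  refine ⟨h0, h1.trans h1', ⟨p ++ p', ?_⟩, q' ++ q, ?_⟩
  · rw [← List.append_assoc]
    exact ρ.trans' (ρ.mulR p' hp) hp'
  · rw [← List.append_assoc]
    exact ρ.trans' (ρ.mulR q hq') hq
theorem Er.mulL {ρ : Pg S} {u v : Wo B} (a : Wo B) (h : Er ρ u v) : Er ρ (a ++ u) (a ++ v) := by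
  obtain ⟨h0, h1, ⟨p, hp⟩, q, hq⟩ := h
  refine ⟨by simp [h0], by simp [h1], ⟨p, ?_⟩, q, ?_⟩
  · rw [List.append_assoc]
    exact ρ.mulL a hp
  · rw [List.append_assoc]
    exact ρ.mulL a hq
theorem Er.sub {ρ : Pg S} (f : ℕ → Wo B) (hf : ∀ i, f i ≠ []) {u v : Wo B} (h : Er ρ u v) : Er ρ (sB S f u) (sB S f v) := by
  obtain ⟨h0, h1, ⟨p, hp⟩, q, hq⟩ := h
  refine ⟨sB_ne S f hf h0, cn_sB_congr S f h1, ⟨sB S f p, ?_⟩, sB S f q, ?_⟩
  · rw [← sB_append]
    exact ρ.sub' f hf hp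
  · rw [← sB_append]
    exact ρ.sub' f hf hq
theorem Er.of {ρ : Pg S} (hρ : CP ρ) {u v : Wo B} (hu : u ≠ []) (h : ρ.r u v) : Er ρ u v :=
  ⟨hu, hρ u v h, ⟨[], by simpa using h⟩, [], by simpa using ρ.symm' h⟩
/-- For a base congruence, extending a nonempty word to the right by letters of its content does not change the `R`-class. -/
theorem Bs.ext {θ : Pg S} (hθ : Bs S θ) {u t : Wo B} (hu : u ≠ []) (ht : CR.cn t ⊆ CR.cn u) : Er θ u (u ++ t) := by
  obtain ⟨s, hs⟩ := hθ.h1 u t hu ht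
  refine ⟨hu, ?_, ⟨t, θ.refl' _⟩, s, θ.symm' hs⟩
  rw [cn_append, Finset.union_eq_left.2 ht]
theorem Bs.extρ {θ ρ : Pg S} (hθ : Bs S θ) (hρ : LeP θ ρ) {u t : Wo B} (hu : u ≠ []) (ht : CR.cn t ⊆ CR.cn u) :
    Er ρ u (u ++ t) := (hθ.ext hu ht).mono hρ

end

/-! ## Reversal -/

/-- Reversed sign data. -/
def Sgn.rev (S : Sgn B) : Sgn B where
  sg b w := (S.sg b w.reverse).reverse
  o := S.o
  nil := by intro b; simp [S.nil]
  cng := by intro b w; rw [cn_reverse, S.cng, cn_reverse]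
  sur := by
    intro b w hw
    obtain ⟨w', h1, h2⟩ := S.sur b w.reverse (by simpa using hw)
    exact ⟨w'.reverse, by simpa using h1, by simp [h2]⟩
  lit := by intro b i; simp [S.lit]
  two := S.two

theorem rev_rev_sg (S : Sgn B) : S.rev.rev = S := by
  cases S
  simp [Sgn.rev]

theorem sB_rev (S : Sgn B) (f : ℕ → Wo B) (w : Wo B) : sB S.rev f w = (sB S (fun i => (f i).reverse) w.reverse).reverse := by
  induction w with
  | nil => rfl
  | cons a w ih =>
    rw [sB_cons, ih, List.reverse_cons, sB_append, sB_single, List.reverse_append]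
    rfl

/-- Reversed congruence. -/
def Pg.rev {S : Sgn B} (ρ : Pg S) : Pg S.rev where
  r u v := ρ.r u.reverse v.reverse
  refl' u := ρ.refl' _
  symm' h := ρ.symm' h
  trans' h h' := ρ.trans' h h'
  mul' := by
    intro u v a b h
    simpa [List.reverse_append] using ρ.mul' b.reverse a.reverse h
  sub' := by
    intro u v f hf h
    rw [sB_rev, sB_rev]
    simp only [List.reverse_reverse]
    exact ρ.sub' (fun i => (f i).reverse) (fun i => by simpa using hf i) h

theorem CP.rev {S : Sgn B} {ρ : Pg S} (h : CP ρ) : CP ρ.rev := by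
  intro u v huv
  have := h _ _ huv
  rwa [cn_reverse, cn_reverse] at this

theorem LeP.rev {S : Sgn B} {α β : Pg S} (h : LeP α β) : LeP α.rev β.rev := fun u v huv => h _ _ huv

theorem Bs.rev {S : Sgn B} {θ : Pg S} (h : Bs S θ) : Bs S.rev θ.rev where
  cp := h.cp.rev
  h1 := by
    intro u t hu ht
    obtain ⟨s, hs⟩ := h.h1' u.reverse t.reverse (by simpa using hu) (by rwa [cn_reverse, cn_reverse])
    refine ⟨s.reverse, ?_⟩
    change θ.r _ _
    simpa [List.reverse_append] using hs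
  h1' := by
    intro u t hu ht
    obtain ⟨s, hs⟩ := h.h1 u.reverse t.reverse (by simpa using hu) (by rwa [cn_reverse, cn_reverse])
    refine ⟨s.reverse, ?_⟩
    change θ.r _ _
    simpa [List.reverse_append] using hs
  h2 := by
    intro w hw
    obtain ⟨p, q, h1, h2, h3, h4⟩ := h.h2' w.reverse (by simpa using hw)
    refine ⟨p.reverse, q.reverse, ?_, ?_, ?_, ?_⟩
    · change θ.r _ _
      simpa [List.reverse_append] using h1
    · change θ.r _ _
      simpa [List.reverse_append] using h2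
    · intro b
      change θ.r _ _
      simpa [Sgn.rev] using h3 b
    · rw [cn_reverse, h4, cn_reverse]
  h2' := by
    intro w hw
    obtain ⟨p, q, h1, h2, h3, h4⟩ := h.h2 w.reverse (by simpa using hw)
    refine ⟨p.reverse, q.reverse, ?_, ?_, ?_, ?_⟩
    · change θ.r _ _
      simpa [List.reverse_append] using h1
    · change θ.r _ _
      simpa [List.reverse_append] using h2
    · intro b
      change θ.r _ _
      simpa [Sgn.rev] using h3 b
    · rw [cn_reverse, h4, cn_reverse]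

end Pool.Agent.Helper75.CR
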