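import Pool.Agent.Helper75.CR.Asm

/-!
# Project CR: varieties without nontrivial null algebras which contain `SL3` are completely regular
-/

set_option autoImplicit false

namespace Pool.Agent.Helper75.CR

open Helper1.IM

/-- Some member of `V` is a nontrivial null algebra: all products are equal and there are two different elements. -/
def HasNull (V : Set InvSg) : Prop := ∃ A ∈ V, (∀ a b c d : A.carrier, a * b = c * d) ∧ ∃ a b : A.carrier, a ≠ b

/-- Carrier of the two element null algebra. -/
structure C2 where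
  val : Bool

instance sg2 : Semigroup C2 where
  mul _ _ := ⟨false⟩
  mul_assoc _ _ _ := rfl

instance sm2 : StarMul C2 where
  star p := p
  star_involutive _ := rfl
  star_mul _ _ := rfl

/-- The two element null algebra. -/
def N2 : InvSg where
  carrier := C2
  ne := ⟨⟨false⟩⟩

theorem N2_mul (a b : N2.carrier) : a * b = (⟨false⟩ : C2) := rfl

theorem evr_N2 (e : ℕ → N2.carrier) (b : N2.carrier) (c : Lt) (w : Wd) : evr N2 e b (c :: w) = (⟨false⟩ : C2) := by
  induction w generalizing b c with
  | nil => rfl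
  | cons d w ih =>
    have h : evr N2 e b (c :: d :: w) = evr N2 e (b * evl N2 e c) (d :: w) := rfl
    rw [h, ih]

theorem crf_of (θ : FIC) (h : SLE θ) (a b c : Lt) (v : Wd) (hr : θ.r [a] (b :: c :: v)) : CRF θ := by
  have hu : ¬ Prd [a] := by
    rintro ⟨i, h1, h2⟩
    simp only [List.mem_singleton] at h1 h2
    rw [← h1] at h2
    simp at h2
  have hsc : SC [a] (b :: c :: v) := by
    rcases h _ _ hr with h1 | h1
    · exact absurd h1.1 hu
    · exact h1.2.2
  have hall : ∀ x ∈ b :: c :: v, x = a := fun x hx => by simpa using (hsc x).2 hx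
  let f : ℕ → Wd := fun _ => if a.2 then [Y 0] else [X 0]
  have hf : ∀ i, f i ≠ [] := by
    intro i
    simp only [f]
    split <;> simp
  have hfa : sb f [a] = [X 0] := by
    rw [sb_single]
    simp only [f]
    rcases a with ⟨i, s⟩
    cases s <;> simp [st, fl, X, Y]
  have hfw : ∀ w : Wd, (∀ x ∈ w, x = a) → sb f w = List.replicate w.length (X 0) := by
    intro w
    induction w with
    | nil => intro _; rfl
    | cons x w ih =>
      intro hw
      have hx : x = a := hw x (by simp)
      have h1 : sb f (x :: w) = sb f [x] ++ sb f w := by rw [← sb_append]; rfl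
      rw [h1, ih (fun y hy => hw y (by simp [hy])), hx, hfa]
      simp [List.replicate_succ]
  have h1 := θ.sub' f hf hr
  rw [hfa, hfw _ hall] at h1
  have h2 : List.replicate (b :: c :: v).length (X 0) = [X 0, X 0] ++ List.replicate v.length (X 0) := by
    simp [List.replicate_succ]
  have h3 : List.replicate (b :: c :: v).length (X 0) = List.replicate v.length (X 0) ++ [X 0, X 0] := by
    have : (b :: c :: v).length = v.length + 2 := by simp
    rw [this, List.replicate_add]
    rfl
  exact ⟨⟨_, h2 ▸ h1⟩, _, h3 ▸ h1⟩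

/-- MODULE P6. -/
theorem hP6 (θ : FIC) (hN : ¬ HasNull (Md θ)) (h : SLE θ) : CRF θ := by
  by_contra hc
  apply hN
  refine ⟨N2, ?_, fun a b c d => rfl, (⟨false⟩ : C2), (⟨true⟩ : C2), ?_⟩
  · intro u v huv
    refine ⟨⟨fun hu => θ.ne' huv hu, fun hv => θ.ne' (θ.symm' huv) hv⟩, ?_⟩
    intro A hA e a b u' v' hu hv
    have hA' : A = N2 := hA
    subst hA'
    subst hu
    subst hv
    rcases u' with _ | ⟨c, u'⟩
    · rcases v' with _ | ⟨d, v'⟩
      · have hab : a = b := by
          rcases h _ _ huv with h1 | h1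
          · exfalso
            obtain ⟨i, h2, h3⟩ := h1.1
            simp only [List.mem_singleton] at h2 h3
            rw [← h2] at h3
            simp at h3
          · have := (h1.2.2 a).1 (by simp)
            simpa using this
        rw [hab]
      · exact absurd (crf_of θ h a b d v' huv) hc
    · rcases v' with _ | ⟨d, v'⟩
      · exact absurd (crf_of θ h b a c u' (θ.symm' huv)) hc
      · rw [evr_N2, evr_N2]
  · intro h1
    have h2 := congrArg C2.val h1
    simp at h2

/-- Completely regular varieties do not contain nontrivial null algebras. -/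
theorem noNull_of_CR (V : Set InvSg) (hCR : ∀ A ∈ V, IsCR A) : ¬ HasNull V := by
  rintro ⟨A, hA, h1, a, b, hab⟩
  obtain ⟨c, hc, -⟩ := hCR A hA a
  obtain ⟨d, hd, -⟩ := hCR A hA b
  apply hab
  rw [← hc, ← hd]
  exact h1 _ _ _ _

/-- The main theorem from the module statements, in the form for varieties without nontrivial null algebras. -/
theorem asm' (hM5 : StM5) (hN3 : StN3) (hN8 : StN8) (hO3 : StO3) (hP1 : StP1) (hP2 : StP2) (hP3 : StP3) (hP4 : StP4) (hP5 : StP5)
    (V : Set InvSg) (hV : IsVar V) (hN : ¬ HasNull V) :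
    (ModLat V → SL3 ∉ V ∨ Abs V) ∧ ((SL3 ∉ V ∧ ∀ A ∈ V, IsCR A) ∨ (SL3 ∈ V ∧ SL4 ∉ V ∧ Abs V) → ModLat V) := by
  obtain ⟨θ, rfl⟩ := fV3'.2 V hV
  rw [fV5' θ]
  constructor
  · intro hm
    by_cases h3 : SL3 ∈ Md θ
    · have hs := (hP2 θ).1 h3
      exact Or.inr ((hP4 θ).2 (hO3 θ (hP6 θ hN hs) hs hm))
    · exact Or.inl h3
  · rintro (⟨h, hCR⟩ | ⟨h3, h4, hab⟩)
    · exact hM5 θ (hP1 θ hCR) (hP5 θ (hP1 θ hCR) (fun h' => h ((hP2 θ).2 h')))
    · have hs := (hP2 θ).1 h3
      have hc := hP6 θ hN hs
      have hp := (hP4 θ).1 hab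
      exact hN8 θ hc hp hs (hN3 θ hc hp hs (fun h' => h4 ((hP3 θ).2 h')))

end Pool.Agent.Helper75.CR
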