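import Pool.Agent.Helper75.CR.Base

/-!
# Project CR (MP_265e56_al, helper75): statements

THEOREM. Let `V` be a variety of involution semigroups all of whose members are completely regular.  If the three element semilattice
`SL3 = {e, e*, 0}` is not in `V`, then `L(V)` is modular.  If `SL3 ∈ V` and `L(V)` is modular then `V` satisfies `x x* = x* x = x x* x`, and the
converse holds if `SL4 = SL3` with an identity adjoined is not in `V`.

IDEA. Any two congruences of the relatively free algebra which are invariant under substitutions and content preserving PERMUTE on the words of a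
given content; induction on the size of the content: `u` is determined up to `R` by the part before the last new letter.

General conventions.  `B` is the type of signs, letters are `(i, b)`, `Wo B` words, `cn` content (set of indices), `Pg S` congruences invariant under
substitutions, `Bs S θ` the properties of the base congruence, `Er ρ` = `R`-relation modulo `ρ` (nonempty words of the same content).
USE THE LEMMAS OF `Base.lean` (`Er.trans, Er.symm, Er.mulL, Er.sub, Er.of, Bs.ext, Bs.extρ, sB_fix, cn_sB_const, Pg.mulL, ...`).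
-/

set_option autoImplicit false

namespace Pool.Agent.Helper75.CR

open Helper1.IM

/-! ## Core: the `R`-relations -/

/-- The index `i` occurs in `u` and its first occurrence is before all occurrences of `j`. -/
def Bef {B : Type} (i j : ℕ) (u : Wo B) : Prop := ∃ s a t, u = s ++ a :: t ∧ a.1 = i ∧ i ∉ cn s ∧ j ∉ cn s

/-- Type one: `r s t` and `r t s` are always `R`-related. -/
def AA {B : Type} {S : Sgn B} (ρ : Pg S) : Prop := ∀ r s t : Wo B, r ≠ [] → s ≠ [] → t ≠ [] → Er ρ (r ++ s ++ t) (r ++ t ++ s)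

/-- MODULE A (90 lines; theorem hA : StA). A violation of the order of first occurrences forces type one.
Proof. Write `x = (0, S.o)`, `y = (1, S.o)`, `z = (2, S.o)`.
(1) `e`: by `h2` for `[x]` there is `e` with `cn e = {0}`, `θ (e e) e`, `θ (sg b e) e` for all `b`. `e = e'' ++ [(0, b0)]` (last letter, `e ≠ []`); `h1'` with
`u := [(0, b0)]`, `t := e''` gives `k` with `θ [(0, b0)] (k ++ e)`.
(2) `w1 = e ++ [y] ++ [z]`, `w2 = e ++ [z] ++ [y]`, `f, g` from `h2` for `w1`, `w2`: `θ f (w1 q)`, `θ (f f) f`, `θ (sg b f) f`, `cn f = {0,1,2}`; same for `g`.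
`θ (e f) f` since `θ (e e) e`. `Er θ f w1`: `θ f (w1 q)`, `cn q ⊆ cn f = cn w1` (as `θ` is content preserving), so `Er θ w1 (w1 q)` by `Bs.ext`, and
`Er θ (w1 q) f` by `Er.of`. Same for `g`.
(3) Let `σ i = f`, `σ j = g`, `σ l = e` otherwise. `Er ρ (sB σ u) (sB σ v)` (`Er.sub`). Claim `Er θ (sB σ u) f`: `u = s ++ a :: t`, `a.1 = i`, `i, j ∉ cn s`: every
letter of `s` is mapped to some `sg b e`, `θ`-equal to `e`, so `sB σ s` is `[]` (if `s = []`) or `θ`-equal to `e`; so `θ (sB σ u) (f ++ T)`, `T = sB σ t`, by `θ (sg a.2 f) f` and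
`θ (e f) f`; `cn T ⊆ {0,1,2} = cn f`, so `Er θ f (f ++ T)` by `Bs.ext`. Same: `Er θ (sB σ v) g`. Hence `Er ρ f g`, `Er ρ w1 w2`.
(4) `Er.mulL k`: `Er ρ (k ++ w1) (k ++ w2)`, and `θ (k ++ e) [(0,b0)]`, so `Er ρ [(0,b0), y, z] [(0,b0), z, y]`.
(5) For nonempty `r, s, t` choose (`S.sur`) `r', s', t'` nonempty with `sg b0 r' = r`, `sg o s' = s`, `sg o t' = t` and substitute `0 ↦ r', 1 ↦ s', 2 ↦ t'` (others arbitrary
nonempty). -/
def StA : Prop := ∀ (B : Type) (S : Sgn B) (θ ρ : Pg S), Bs S θ → LeP θ ρ → ∀ (i j : ℕ) (u v : Wo B), i ≠ j → Er ρ u v →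
  Bef i j u → Bef j i v → AA ρ

/-- MODULE B (25 lines; theorem hB : StB). Type one: only the first letter (with sign) matters.
Proof. If `s = []`: `cn t ⊆ {a.1}`, `Bs.extρ` with `[a]` and `t`. Same for `t = []`. Otherwise `Er ρ (a::s) (a::s ++ t)` and `Er ρ (a::t) (a::t ++ s)` by `Bs.extρ`
(`cn t ⊆ cn (a::s)`, `cn s ⊆ cn (a::t)`), and `AA ρ` with `r = [a]` gives `Er ρ ([a] ++ s ++ t) ([a] ++ t ++ s)`. -/
def StB : Prop := ∀ (B : Type) (S : Sgn B) (θ ρ : Pg S), Bs S θ → LeP θ ρ → AA ρ → ∀ (a : ℕ × B) (s t : Wo B),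
  cn (a :: s) = cn (a :: t) → Er ρ (a :: s) (a :: t)

/-- MODULE C (40 lines; theorem hC : StC). If two `Er`-related words start with different indices then `Er ρ` relates all words of the same content.
Proof. Given `u ≠ []`, `cn u = cn v` (so `v ≠ []`). `S.sur`: `u'` with `sg a.2 u' = u`, `v'` with `sg b.2 v' = v`; `cn u' = cn u`, `cn v' = cn v = cn u` (`S.cng`). Substitute
`f a.1 = u'`, `f b.1 = v'`, `f l = u` otherwise: `sB f (a::s) = u ++ sB f s`, `cn (sB f s) ⊆ cn u` (`cn_sB`), so `Er ρ u (sB f (a::s))` (`Bs.extρ`); same for `v`;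
`Er.sub`. -/
def StC : Prop := ∀ (B : Type) (S : Sgn B) (θ ρ : Pg S), Bs S θ → LeP θ ρ → ∀ (a b : ℕ × B) (s t : Wo B), a.1 ≠ b.1 →
  Er ρ (a :: s) (b :: t) → ∀ u v : Wo B, u ≠ [] → cn u = cn v → Er ρ u v

/-- MODULE D (35 lines; theorem hD : StD). Same first index, different signs: all signs are `Er`-related for one letter words.
Proof. Substitute `f l = [(i, o)]` for all `l`: `sB f (a::s) = [(i, a.2)] ++ sB f s` (`S.lit`), `cn (sB f s) ⊆ {i}`; so `Er ρ [(i, a.2)] [(i, b.2)]` (`Bs.extρ` twice, `Er.sub`).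
`a.2 ≠ b.2` as `a ≠ b`, `a.1 = b.1`. `S.two a.2 b.2 c d`: `c = d` (`Er.rfl'`), or `(c, d) = (a.2, b.2)`, or `(b.2, a.2)` (`Er.symm`). -/
def StD : Prop := ∀ (B : Type) (S : Sgn B) (θ ρ : Pg S), Bs S θ → LeP θ ρ → ∀ (a b : ℕ × B) (s t : Wo B), a.1 = b.1 → a ≠ b →
  Er ρ (a :: s) (b :: t) → ∀ (i : ℕ) (c d : B), Er ρ [(i, c)] [(i, d)]

/-- MODULE E (90 lines; theorem hE : StE). Same new last index, different signs: signs of a last new letter do not matter.
Proof. (1) `h2` for `[(k, o)]`: `p` with `cn p = {k}`, `θ (sg b p) p` for all signs; `p = (k, b1) :: p'`. Substitute `k ↦ p`, `l ↦ [(l, o)]` otherwise: `s`, `t` are fixed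
(`sB_fix`), so `Er ρ (s ++ sg b p) (t ++ sg c p)`, so `Er ρ (s ++ p) (t ++ p)` (use `Er.of hθ.cp` and `mono`), so `Er ρ (s ++ [(k,b1)]) (t ++ [(k,b1)])` (`Bs.extρ`, `cn p' ⊆ {k}`).
(2) For a sign `d` let `sg b1 w' = [(k, d)]` (`S.sur`, `cn w' = {k}`), substitute `k ↦ w'`, others fixed: `Er ρ (s ++ [(k,d)]) (t ++ [(k,d)])`. For `d = b`, with the hypothesis:
`Er ρ (t ++ [(k,b)]) (t ++ [(k,c)])`.
(3) Substitute `k ↦ [(1,o)]`, `l ↦ [(0,o)]` otherwise: `t` becomes `V ≠ []`, `cn V = {0}`: `Er ρ (V ++ [(1,b)]) (V ++ [(1,c)])`. `V = V' ++ [(0,b0)]`; `h1'` with `u := [(0,b0)]`,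
`t := V'`: `θ [(0,b0)] (x ++ V)`. `Er.mulL x`, and `θ`-equality of `[(0,b0)] ++ [(1,b)]` with `x ++ V ++ [(1,b)]`: `Er ρ [(0,b0),(1,b)] [(0,b0),(1,c)]`.
(4) For `w, j, d, e`: `S.two b c d e`: `d = e` is trivial; otherwise it suffices (`Er.symm`) to treat `d = b`, `e = c`: substitute `0 ↦ w''` with `sg b0 w'' = w`, `1 ↦ [(j,o)]`. -/
def StE : Prop := ∀ (B : Type) (S : Sgn B) (θ ρ : Pg S), Bs S θ → LeP θ ρ → ∀ (k : ℕ) (b c : B) (s t : Wo B), b ≠ c → s ≠ [] →
  cn s = cn t → k ∉ cn s → Er ρ (s ++ [(k, b)]) (t ++ [(k, c)]) → ∀ (w : Wo B) (j : ℕ) (d e : B), w ≠ [] →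
  Er ρ (w ++ [(j, d)]) (w ++ [(j, e)])

/-- MODULE F (30 lines; theorem hF : StF). The last new index. Proof. Induction on the length of `u` from the right (`List.reverseRecOn`): `u = u' ++ [c]`; if `c.1 ∉ cn u'` take
`s = u'`, `a = c`, `t = []`; if `c.1 ∈ cn u'` (so `u' ≠ []`, `cn u = cn u'`) use the decomposition of `u'` and `t ++ [c]`. -/
def StF : Prop := ∀ (B : Type) (u : Wo B), u ≠ [] → ∃ s a t, u = s ++ a :: t ∧ a.1 ∉ cn s ∧ cn (s ++ [a]) = cn u

/-- MODULE G (110 lines; theorem hG : StG). The congruence `ρ0`: `s`, `t` are `ρ0`-related iff `s k` and `t k` are `Er ρ`-related for new letters `k`.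
Proof. Define `r s t := (s = [] ∧ t = []) ∨ (s ≠ [] ∧ cn s = cn t ∧ ∀ k c, k ∉ cn s → Er ρ (s ++ [(k,c)]) (t ++ [(k,c)]))`. Transitivity: `Er.trans`. `LeP θ ρ0`: `θ s t` gives
`cn s = cn t` (`hθ.cp`) and `Er θ (s ++ [(k,c)]) (t ++ [(k,c)])` (`Er.of`). One instance suffices (last claim): given `Er ρ (s ++ [(k,c)]) (t ++ [(k,c)])` and `k' ∉ cn s`, `c'`: `w'` with
`sg c w' = [(k', c')]` (`S.sur`), substitute `k ↦ w'`, others `l ↦ [(l,o)]`; `s`, `t` are fixed (`sB_fix`). `mul'`: `s ≠ []`, `k ∉ cn (a ++ s ++ b)`: from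
`Er ρ (s ++ [(k,o)]) (t ++ [(k,o)])` substitute `k ↦ w'` with `sg o w' = b ++ [(k,c)]`, others fixed: `Er ρ (s ++ b ++ [(k,c)]) (t ++ b ++ [(k,c)])`; `Er.mulL a`. `sub'`: given `f` and `k ∉ cn (sB f s)`;
choose `k' ∉ cn s` (`Infinite.exists_notMem_finset`), substitute `f' k' = [(k, o)]`, `f' l = f l` otherwise in `Er ρ (s ++ [(k',c)]) (t ++ [(k',c)])`; `sB f' s = sB f s` (`sB_congr`), `sB f' t = sB f t`.
For `s = []` all is trivial. -/
def StG : Prop := ∀ (B : Type) (S : Sgn B) (θ ρ : Pg S), Bs S θ → LeP θ ρ → ∃ ρ0 : Pg S, LeP θ ρ0 ∧ CP ρ0 ∧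
  (∀ (s t : Wo B) (k : ℕ) (c : B), s ≠ [] → ρ0.r s t → k ∉ cn s → Er ρ (s ++ [(k, c)]) (t ++ [(k, c)])) ∧
  (∀ (s t : Wo B) (k : ℕ) (c : B), s ≠ [] → cn s = cn t → k ∉ cn s → Er ρ (s ++ [(k, c)]) (t ++ [(k, c)]) → ρ0.r s t)

/-- The `Er`-relations permute on words with `m` indices. -/
def PR {B : Type} (S : Sgn B) (θ : Pg S) (m : ℕ) : Prop := ∀ α β : Pg S, LeP θ α → LeP θ β → CP α → CP β → ∀ u w v : Wo B,
  (cn u).card = m → Er α u w → Er β w v → ∃ w', Er β u w' ∧ Er α w' v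

/-- The congruences permute on words with `m` indices. -/
def PM {B : Type} (S : Sgn B) (θ : Pg S) (m : ℕ) : Prop := ∀ α β : Pg S, LeP θ α → LeP θ β → CP α → CP β → ∀ u w v : Wo B,
  (cn u).card = m → α.r u w → β.r w v → ∃ w', β.r u w' ∧ α.r w' v

/-- MODULE H1 (50 lines; theorem hH1 (hD : StD) : StH1). One index.
Proof. `cn u = cn w = cn v = {i}`, `u = a::u'`, `w = b::w'`, `v = c::v'`, `a.1 = b.1 = c.1 = i`, and `Er ρ [a] u`, `Er ρ [c] v` (`Bs.extρ`, `cn u' ⊆ {i}`) for `ρ = α, β`. If `a = c`: `w' := u`,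
`Er α u v`. If `a ≠ c`: `a ≠ b` or `b ≠ c`. If `a ≠ b`: StD for `α` gives `Er α [a] [c]`, so `Er α u v`: `w' := u`. If `b ≠ c`: StD for `β` gives `Er β u v`: `w' := v`. -/
def StH1 : Prop := ∀ (B : Type) (S : Sgn B) (θ : Pg S), Bs S θ → PR S θ 1

/-- MODULE H2 (70 lines; theorem hH2 (hB : StB) (hC : StC) (hD : StD) : StH2). Both of type one.
Proof. `u = a::u'`, `w = b::w'`, `v = c::v'`. If `a.1 ≠ b.1`: StC for `α`: `Er α u v`, take `u`. If `b.1 ≠ c.1`: StC for `β`: `Er β u v`, take `v`. Now `a.1 = b.1 = c.1`. If `a = c`: `Er α u v` by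
StB, take `u`. If `a ≠ c`: (i) `a ≠ b`: StD for `α`: `Er α [a] [c]` (`[(a.1, a.2)]`, `[(a.1, c.2)]`): `α ([a] ++ p) [c]`, so `α (a::p ++ v') (c::v')`, so `Er α (a::(p ++ v')) (c::v')` (`Er.of`), and
`Er α (a::u') (a::(p ++ v'))` by StB (contents: `α` is content preserving): `Er α u v`, take `u`. (ii) `b ≠ c`: the same for `β`: `Er β u v`, take `v`. -/
def StH2 : Prop := ∀ (B : Type) (S : Sgn B) (θ : Pg S), Bs S θ → ∀ α β : Pg S, LeP θ α → LeP θ β → CP α → CP β → AA α → AA β →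
  ∀ u w v : Wo B, Er α u w → Er β w v → ∃ w', Er β u w' ∧ Er α w' v

/-- MODULE H3 (90 lines; theorem hH3 (hA : StA) (hB : StB) (hC : StC) (hD : StD) : StH3). `α` of type one, `β` not.
Proof. `u = a::u'`, `w = b::w'`, `v = c::v'`. If `a.1 ≠ b.1`: StC for `α`: `Er α u v`, take `u`. `b.1 = c.1`: otherwise `Bef b.1 c.1 w` and `Bef c.1 b.1 v` (with `s = []`), so `AA β` by StA. So
`a.1 = b.1 = c.1`. If `a = c`: StB for `α`: `Er α u v`, take `u`. If `a ≠ c` and `a ≠ b`: StD for `α`, `Er α u v` as in H2 (i), take `u`. If `a = b ≠ c`: StD for `β` (applied to `Er β w v`): `Er β [c] [a]`, so `β ([c] ++ q) [a]`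
for some `q`; `w' := c :: (q ++ u')`: `β w' (a::u')`, so `Er β u w'` (`Er.of`, `Er.symm`); `Er α w' v` by StB (same first letter `c`, `cn w' = cn u = cn v`). -/
def StH3 : Prop := ∀ (B : Type) (S : Sgn B) (θ : Pg S), Bs S θ → ∀ α β : Pg S, LeP θ α → LeP θ β → CP α → CP β → AA α → ¬ AA β →
  ∀ u w v : Wo B, Er α u w → Er β w v → ∃ w', Er β u w' ∧ Er α w' v

/-- MODULE H4 (110 lines; theorem hH4 (hA : StA) (hE : StE) (hF : StF) (hG : StG) : StH4). Neither of type one.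
Proof. StF: `u = s1 ++ a1 :: t1`, `w = s2 ++ a2 :: t2`, `v = s3 ++ a3 :: t3`. `Er θ (s1 ++ [a1]) u` etc. (`Bs.ext` with `t1`; `cn t1 ⊆ cn u = cn (s1 ++ [a1])`). Indices: `a1.1 = a2.1`: if not, `a2.1 ∈ cn s1`
(as `a2.1 ∈ cn w = cn u = cn (s1 ++ [a1])`) so `Bef a2.1 a1.1 u` (take the first occurrence of `a2.1` in `s1`), and `Bef a1.1 a2.1 w` similarly, so `AA α` by StA. Same for `β`. Let `k = a1.1`. `cn s1 = cn u \ {k} = cn s2 = cn s3`,
of size `m ≥ 1`, so all `s_i ≠ []`. `Er α (s1 ++ [a1]) (s2 ++ [a2])`. Claim `Er α (s1 ++ [a1]) (s2 ++ [a1])`: trivial if `a1 = a2`, otherwise by StE (applied to this relation) `Er α (s2 ++ [a2]) (s2 ++ [a1])`. So `α0 s1 s2`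
with `α0` from StG; same `β0 s2 s3`. `PM S θ m` for `α0, β0`: `s'` with `β0 s1 s'`, `α0 s' s3`; `cn s' = cn s1`. If `a1 = a3`: `w' := s' ++ [a1]`: `Er β (s1 ++ [a1]) (s' ++ [a1])` and `Er α (s' ++ [a1]) (s3 ++ [a1])` by StG.
If `a1 ≠ a3`: `a1 ≠ a2` or `a2 ≠ a3`. If `a1 ≠ a2`: StE for `α` (from `Er α (s1 ++ [a1]) (s2 ++ [a2])`), `w' := s' ++ [a1]`, `Er α (s' ++ [a1]) (s' ++ [a3])`, `Er α (s' ++ [a3]) (s3 ++ [a3])`. If `a2 ≠ a3`: StE for `β`,
`w' := s' ++ [a3]`: `Er β (s1 ++ [a1]) (s1 ++ [a3])`, `Er β (s1 ++ [a3]) (s' ++ [a3])`, `Er α (s' ++ [a3]) (s3 ++ [a3])`. -/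
def StH4 : Prop := ∀ (B : Type) (S : Sgn B) (θ : Pg S) (m : ℕ), Bs S θ → 1 ≤ m → PM S θ m → ∀ α β : Pg S, LeP θ α → LeP θ β →
  CP α → CP β → ¬ AA α → ¬ AA β → ∀ u w v : Wo B, (cn u).card = m + 1 → Er α u w → Er β w v → ∃ w', Er β u w' ∧ Er α w' v

/-- Assembly of H1 to H4. -/
def StH : Prop := ∀ (B : Type) (S : Sgn B) (θ : Pg S), Bs S θ → PR S θ 1 ∧ ∀ m, 1 ≤ m → PM S θ m → PR S θ (m + 1)

/-! ## Core: completely simple semigroups -/

/-- `R`-relation modulo a congruence. -/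
def RR {T : Type} [Semigroup T] (ρ : Con T) (a b : T) : Prop := (∃ p, ρ (a * p) b) ∧ ∃ q, ρ (b * q) a

/-- `L`-relation modulo a congruence. -/
def LL {T : Type} [Semigroup T] (ρ : Con T) (a b : T) : Prop := (∃ p, ρ (p * a) b) ∧ ∃ q, ρ (q * b) a

/-- MODULE I (150 lines; theorem hI : StI). Congruences of a completely simple semigroup permute if their `R`- and `L`-relations do.
Proof. All equalities are modulo `θ`. (0) Fix `z : T`; `z = z z u z` for some `u`; `e := z z u` is idempotent: `e e = (z z u z) z u = z z u = e`.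
(1) For `a : T` there is `h` with `h = e h e`, `h (e a e) = e`, `(e a e) h = e`: `e = e (a e) u e` (first hypothesis, `b := a e`... i.e. `e = e * (a * e) * u * e`), so `k := e u e` satisfies `(e a e) k = e`; second hypothesis with
`b := e * a`: `e = e u' (e a) e`, so `k' := e u' e` satisfies `k' (e a e) = e`; `k = e k = k' (e a e) k = k' e = k'`; `h := k`.
(2) `e_a := a h`, `f_a := h a`. `e_a e = e_a`, `e e_a = e a h = (e a e) h = e`, `e f_a = f_a`, `f_a e = e`. `a h a = a`: first hypothesis `a = a e u a` (`b := e`), second `a = a v e a` (`b := e`); hence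
`a = a v e a = a v e (a e u a) = a v (e a e) u a = a v (e a e) h (e a e) u a = (a v e a) h (a e u a)`, using `e h e = h`, `= a h a`. So `e_a a = a`, `a f_a = a` and `a = e_a (e a e) f_a` (`= a h e a e h a = a h (e a e) h a = a e h a = a h a`).
(3) If `RR ρ a b` (`θ ≤ ρ`) then `ρ e_a e_b`: `ρ (b q) a`, `e_b b = b`, so `ρ (e_b a) a`, so `ρ (e_b e_a) e_a` (`e_a = a h`); and `e_b e_a = e_b e e_a = e_b e = e_b`. Dually `LL ρ a b` gives `ρ f_a f_b`.
(4) Group part: `x = e a e`, `y = e w e`, `y' ` the inverse of `y`, `t = e b e`; `α x y`, `β y t`; `g := x y' t`: `β g x` (`β t y`, `x y' y = x e = x`), `α g t` (`α x y`, `y y' t = e t = t`).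
(5) `R`-permutability gives `w1` with `RR β a w1`, `RR α w1 b`; `L`: `w2` with `LL β a w2`, `LL α w2 b`. (`α a w` gives `RR α a w`: `ρ (a * p) w` with `p` such that `a p = a` modulo `θ`, e.g. `a = a * a * u * a`, `p = a * u * a`; same for `LL`.)
`w' := e_{w1} * g * f_{w2}`: `a = e_a x f_a`, `β`-related to `w'`; `b = e_b t f_b`, `α`-related to `w'`. -/
def StI : Prop := ∀ (T : Type) [Semigroup T] (θ α β : Con T), θ ≤ α → θ ≤ β → (∀ a b : T, ∃ u, θ a (a * b * u * a)) →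
  (∀ a b : T, ∃ u, θ a (a * u * b * a)) →
  (∀ a w b : T, RR α a w → RR β w b → ∃ w', RR β a w' ∧ RR α w' b) →
  (∀ a w b : T, LL α a w → LL β w b → ∃ w', LL β a w' ∧ LL α w' b) →
  ∀ a w b : T, α a w → β w b → ∃ w', β a w' ∧ α w' b

/-- MODULE J (150 lines; theorem hJ (hI : StI) : StJ). Words of a given content.
Proof. Let `C = cn u`, `T := {x : Wo B // cn x = C}` with concatenation (a semigroup; all elements are nonempty as `C ≠ ∅`). `α, β, θ` restrict to `Con T`. Hypotheses of StI. First one: for `a, b ∈ T`: `h1` with `t := b ++ a`: `θ a (a b a s)`.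
Also `a` is regular: `h1` with `t := a`: `θ a (a a s1)`, `h1'`: `θ a (s2 a a)`; so `s2 a = s2 a a s1 = a s1` and `a s1 a = s2 a a = a` (mod `θ`). Hence `a = (a b a s) s1 a = a b (a s s1) a`; `u := a s s1` has content `C` (it contains `a`, and
`θ` is content preserving). Second hypothesis: dually (`θ a (s a b a)`, `a = a s1 (s a b a)`, `u := s1 s a`). `RR α a w` on `T` iff `Er α a w`: `→` clear; `←`: `α (a ++ p) w` with `p` perhaps of smaller content: `w = w w s1` mod `θ`, so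
`α (a ++ (p ++ w ++ s1)) w` and `p ++ w ++ s1` has content `C` (contained in `C` since `cn (a ++ p) = cn w = C`). So the `R`-hypothesis is `PR S θ m`. `LL α a w` on `T` iff `Er α.rev a.reverse w.reverse` (word congruence `α.rev` on reversed words), so the
`L`-hypothesis is `PR S.rev θ.rev m` (`(cn a.reverse).card = m`). -/
def StJ : Prop := ∀ (B : Type) (S : Sgn B) (θ : Pg S) (m : ℕ), Bs S θ → 1 ≤ m → PR S θ m → PR S.rev θ.rev m → PM S θ m

/-- MODULE K (30 lines; theorem hK (hH : StH) (hJ : StJ) : StK). Proof. Induction on `m` for all `S, θ` simultaneously. `m = 0`: `u = []`, so `w = v = []` (contents), take `[]`. `m = 1`: StJ with `PR S θ 1` and `PR S.rev θ.rev 1` (StH for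
`S` and `S.rev`, `Bs.rev`). `m + 1`, `m ≥ 1`: `PR S θ (m+1)` from `PM S θ m`; `PR S.rev θ.rev (m+1)` from `PM S.rev θ.rev m` (induction hypothesis for `S.rev, θ.rev`). -/
def StK : Prop := ∀ (B : Type) (S : Sgn B) (θ : Pg S), Bs S θ → ∀ m, PM S θ m

/-! ## Completely regular congruences: the `J`-relation -/

/-- `u` is `ρ`-equal to a word containing `v`. -/
def Jl {B : Type} {S : Sgn B} (ρ : Pg S) (u v : Wo B) : Prop := ∃ a d, ρ.r u (a ++ v ++ d)

/-- Completely regular congruences. -/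
def CRW {B : Type} {S : Sgn B} (ρ : Pg S) : Prop := ∀ y : Wo B, y ≠ [] → (∃ b, ρ.r y (y ++ y ++ b)) ∧ ∃ b, ρ.r y (b ++ y ++ y)

/-- Signs do not matter for the `J`-relation. -/
def SGW {B : Type} {S : Sgn B} (ρ : Pg S) : Prop := ∀ (i : ℕ) (b b' : B), Jl ρ [(i, b)] [(i, b')]

/-- Sign invariant idempotents. -/
def PRJ {B : Type} {S : Sgn B} (ρ : Pg S) : Prop := ∀ w : Wo B, w ≠ [] →
  (∃ q, ρ.r ((w ++ q) ++ (w ++ q)) (w ++ q) ∧ (∀ b, ρ.r (S.sg b (w ++ q)) (w ++ q)) ∧ cn (w ++ q) = cn w) ∧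
  ∃ q, ρ.r ((q ++ w) ++ (q ++ w)) (q ++ w) ∧ (∀ b, ρ.r (S.sg b (q ++ w)) (q ++ w)) ∧ cn (q ++ w) = cn w

/-- MODULE L1 (40 lines; theorem hL1 : StL1). Proof. `u = u u g`, `u = a v b`, `u = c w d` (mod `ρ`), so `u = (c w d)(a v b) g`. Let `y = w d a` (nonempty): this is `c (y v) (b g)`, and `y v = (y v)(y v) k` by `CRW`, `= y (v w) (d a v k)`. So
`u = (c y) (v w) (d a v k b g)`. -/
def StL1 : Prop := ∀ (B : Type) (S : Sgn B) (ρ : Pg S), CRW ρ → ∀ u v w : Wo B, u ≠ [] → v ≠ [] → w ≠ [] → Jl ρ u v → Jl ρ u w →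
  Jl ρ u (v ++ w)

/-- MODULE L2 (60 lines; theorem hL2 (hL1 : StL1) : StL2). Words with the letters of `t` among those of `u`.
Proof. `t = []`: `s = []`. (a) `Jl ρ u t` for nonempty `t` all of whose letters satisfy `Jl ρ u [a]`: induction on `t` with StL1. A letter `a ∈ u` satisfies `Jl ρ u [a]` (`u = x ++ [a] ++ y`). (b) `Jl ρ u u`, so `Jl ρ u (u ++ t)` and `Jl ρ u (t ++ u)` by StL1.
(c) `u = a u (t d)` with `y := t d ≠ []`, `y = y y b`: `u = a u y = a u y y b = u y b = u t (d b)`. Dually `u = (a t) u d`, `y := a t`, `y = b y y`: `u = y u d = b y y u d = b y u = (b a) t u`. -/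
def StL2 : Prop := ∀ (B : Type) (S : Sgn B) (ρ : Pg S), CRW ρ → ∀ u t : Wo B, u ≠ [] → (∀ a ∈ t, Jl ρ u [a]) →
  (∃ s, ρ.r u (u ++ t ++ s)) ∧ (∃ s, ρ.r u (s ++ t ++ u)) ∧ (t ≠ [] → Jl ρ u t)

/-- MODULE L3 (60 lines; theorem hL3 (hL2 : StL2) : StL3). Unsigned contents, with control of the content of `s`.
Proof. For `a ∈ t`: `(a.1, b) ∈ u` for some `b`, so `Jl ρ u [(a.1, b)]`, and `Jl ρ [(a.1,b)] [a]` (`SGW`), so `Jl ρ u [a]`. StL2 gives `s`. Then substitute `f i = [(i, o)]` if `i ∈ cn u`, `f i = [(j, o)]` otherwise, where `j ∈ cn u` is fixed: `u`, `t` are fixed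
(`sB_fix`) and `cn (sB f s) ⊆ cn u` (`cn_sB`). -/
def StL3 : Prop := ∀ (B : Type) (S : Sgn B) (ρ : Pg S), CRW ρ → SGW ρ → ∀ u t : Wo B, u ≠ [] → cn t ⊆ cn u →
  (∃ s, ρ.r u (u ++ t ++ s) ∧ cn s ⊆ cn u) ∧ (∃ s, ρ.r u (s ++ t ++ u) ∧ cn s ⊆ cn u) ∧ (t ≠ [] → Jl ρ u t)

/-- The content preserving part of a congruence. -/
def cP {B : Type} {S : Sgn B} (ρ : Pg S) : Pg S where
  r u v := ρ.r u v ∧ cn u = cn v
  refl' u := ⟨ρ.refl' u, rfl⟩
  symm' h := ⟨ρ.symm' h.1, h.2.symm⟩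
  trans' h h' := ⟨ρ.trans' h.1 h'.1, h.2.trans h'.2⟩
  mul' a b h := ⟨ρ.mul' a b h.1, by simp [h.2]⟩
  sub' f hf h := ⟨ρ.sub' f hf h.1, cn_sB_congr S f h.2⟩

theorem cP_cp {B : Type} {S : Sgn B} (ρ : Pg S) : CP (cP ρ) := fun _ _ h => h.2

/-- MODULE L4 (50 lines; theorem hL4 (hL3 : StL3) : StL4). Proof. `cp`: by definition. `h1`, `h1'`: StL3, contents: `cn (u ++ t ++ s) = cn u`. `h2`: `p := w ++ q` from `PRJ`, contents: `cn (p ++ p) = cn p`, `cn (sg b p) = cn p`. -/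
def StL4 : Prop := ∀ (B : Type) (S : Sgn B) (θ : Pg S), CRW θ → SGW θ → PRJ θ → Bs S (cP θ)

/-! ## Involution semigroups: the case `SL3 ∉ V` -/

/-- Signs for the free involution semigroup. -/
def SB : Sgn Bool where
  sg b w := if b then st w else w
  o := false
  nil := by intro b; cases b <;> simp
  cng := by intro b w; cases b <;> simp [cn, st_fst]
  sur := by
    intro b w hw
    cases b
    · exact ⟨w, hw, by simp⟩
    · exact ⟨st w, by simpa using hw, by simp⟩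
  lit := by intro b i; cases b <;> simp [st, fl]
  two := by decide

theorem sB_SB (f : ℕ → Wd) (w : Wd) : sB SB f w = sb f w := rfl
theorem cn_eq_ct (w : Wd) : cn w = ct w := rfl

/-- A fully invariant congruence as an invariant congruence. -/
def toP (ρ : FIC) : Pg SB where
  r := ρ.r
  refl' := ρ.refl'
  symm' h := ρ.symm' h
  trans' h h' := ρ.trans' h h'
  mul' a b h := ρ.mul' a b h
  sub' f hf h := ρ.sub' f hf h

/-- Completely regular: `x = x x b` and `x = b' x x` for some words `b`, `b'`. -/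
def CRF (ρ : FIC) : Prop := (∃ b, ρ.r [X 0] ([X 0, X 0] ++ b)) ∧ ∃ b, ρ.r [X 0] (b ++ [X 0, X 0])

/-- `x = b x* c` for some words `b`, `c`. -/
def SRF (ρ : FIC) : Prop := ∃ b c, ρ.r [X 0] (b ++ [Y 0] ++ c)

theorem CRF.mono {θ ρ : FIC} (h : CRF θ) (hρ : Le θ ρ) : CRF ρ := by
  obtain ⟨⟨b, hb⟩, c, hc⟩ := h
  exact ⟨⟨b, hρ _ _ hb⟩, c, hρ _ _ hc⟩
theorem SRF.mono {θ ρ : FIC} (h : SRF θ) (hρ : Le θ ρ) : SRF ρ := by
  obtain ⟨b, c, hb⟩ := h
  exact ⟨b, c, hρ _ _ hb⟩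

/-- MODULE M1 (110 lines; theorem hM1 : StM1). Proof. `CRW`: substitute `X 0 ↦ y` (`sub'` with the constant function `y`). `PRJ`: first substitute `X 0` for all letters in `[X 0] = [X 0, X 0] ++ b`; so we may assume that all letters of `b` are `X 0` or `Y 0`; `m := b.length + 1 ≥ 1`. For
`w ≠ []` let `s = w ++ st w`, `st s = s`. Substituting `s` for all letters: `s` is `θ`-equal to the `m+1`-st power of `s` (each letter `X 0`, `Y 0` is replaced by `s` or `st s = s`). Powers: `s^k = (List.replicate k s).flatten`. `p := s^m`: `p p = s^(m-1) s^(m+1) = s^(m-1) s = p` modulo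
`θ`; `st p = p`; `p = w ++ q` as `m ≥ 1`; `ct p = ct w`. For the second half use `s' = st w ++ w`, `p = s'^m = q ++ w`. -/
def StM1 : Prop := ∀ θ : FIC, CRF θ → CRW (toP θ) ∧ PRJ (toP θ)

/-- MODULE M2 (25 lines; theorem hM2 : StM2). Proof. `(i,false) = b' (i,true) c'`: substitute `X 0 ↦ [(i,false)]`. `(i,true)`: substitute `X 0 ↦ [(i,true)]` (`st [(i,true)] = [(i,false)]`). `b = b'`: `a = d = []`. -/
def StM2 : Prop := ∀ θ : FIC, SRF θ → SGW (toP θ)

/-- MODULE M3 (90 lines; theorem hM3 : StM3). Pushing words to a larger content.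
Proof. From `x = x x b`, `x = b' x x`: `x b = b' x x b = b' x`, so `x b x = b' x x = x`: `θ [X 0] ([X 0] ++ b ++ [X 0])`; substituting `X 0` for all letters we may assume that `b` only contains the index `0`. Define `psh z w := w ++ sb (fun _ => z ++ w) b ++ (z ++ w)`. (1) `ρ w w'` gives
`ρ (z ++ w) (z ++ w')` and `ρ (sb (fun _ => z ++ w) b) (sb (fun _ => z ++ w') b)` letter by letter (`star'` for starred letters; `Pg.sBrel (toP ρ)` may be used). (2) contents: `ct_sb`. (3) Let `y = z ++ w`, `ρ w (s ++ y)`. `psh z w = w c y` with `c = sb (fun _ => y) b` and `y c y = y`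
(substitution `X 0 ↦ y`, `y ≠ []`): `w c y = s y c y = s y = w` modulo `ρ`. (4) `sb_sb`, `sb_append`. -/
def StM3 : Prop := ∀ θ : FIC, CRF θ → ∃ psh : Wd → Wd → Wd,
  (∀ ρ : FIC, Le θ ρ → ∀ z w w' : Wd, ρ.r w w' → ρ.r (psh z w) (psh z w')) ∧
  (∀ z w : Wd, w ≠ [] → ct (psh z w) = ct z ∪ ct w) ∧
  (∀ ρ : FIC, Le θ ρ → ∀ z w : Wd, w ≠ [] → (∃ s, ρ.r w (s ++ z ++ w)) → ρ.r (psh z w) w) ∧
  (∀ (f : ℕ → Wd) (z w : Wd), sb f (psh z w) = psh (sb f z) (sb f w))

/-- MODULE M4 (80 lines; theorem hM4 (hL1 : StL1) (hL2 : StL2) (hL3 : StL3) (hM1 : StM1) (hM2 : StM2) : StM4). A congruence which is not content preserving is completely simple.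
Proof. `CRW (toP ρ)`, `SGW (toP ρ)`. By symmetry let `i ∈ ct t`, `i ∉ ct s` (otherwise exchange `s` and `t`; both are nonempty by `ne'`). Substitute `i ↦ z`, all other letters `↦ w`: `s` becomes `S` with `ct S = ct w`, `t` becomes `T` with `ct z ⊆ ct T`, `ρ S T`. `Jl ρ w S` (StL3, `ct S ⊆ ct w`),
`Jl ρ T z` (StL3), so `Jl ρ w z` (compose with `ρ S T`), `Jl ρ w w`, so `Jl ρ w (z ++ w)` by StL1; the argument (c) of StL2 for words: `w = a (z w) d`: with `y := a ++ z` (nonempty), `y = k y y`: `w = y w d = k y y w d = k y w = (k a) z w`. -/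
def StM4 : Prop := ∀ ρ : FIC, CRF ρ → SRF ρ → ∀ s t : Wd, s ≠ [] → ρ.r s t → ct s ≠ ct t → ∀ w z : Wd, w ≠ [] → z ≠ [] →
  ∃ x, ρ.r w (x ++ z ++ w)

/-- MODULE M5 (150 lines; theorem hM5 (hK : StK) (hL3 : StL3) (hL4 : StL4) (hM1 : StM1) (hM2 : StM2) (hM3 : StM3) (hM4 : StM4) : StM5). The case `SL3 ∉ V`.
Proof. `Bs SB (cP (toP θ))` by L4; StK: `PM` for all sizes. Let `α ≤ γ`, `β` be above `θ`, `Jn α β u v`, `γ u v`. If `u = []` then `v = []`, `Jm` by reflexivity. Let `u ≠ []`; all words of the chain are nonempty (`ne'`). `psh` from StM3.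
(1) CLAIM: there is a finite set `E` such that for every `z ≠ []` with `E ⊆ ct z` there is `w` with `α (psh z u) w`, `β w (psh z v)`, `ct w = ct z`. Induction along the chain (`Relation.ReflTransGen`, last step `v → v'`; `E` must contain the contents of the words of the chain, so that
`ct (psh z x) = ct z` for all of them). Start: `w = psh z u`. `β`-step: transitivity. `α`-step: `β w (psh z v)`, `α (psh z v) (psh z v')`, all of content `ct z`: `PM` for the pair `cP (toP β)`, `cP (toP α)` gives `w'` with `α w w'`, `β w' (psh z v')`.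
(2) Choose `z` with content containing `E`, `ct u`, `ct v` (e.g. a list of the letters `X i`; nonempty). `γ (psh z u) (psh z v)` and `α ≤ γ` give `γ w (psh z v)`. So `psh z u` is `α`-related to `w` and `w` is `β ∩ γ`-related to `psh z v`.
(3) If `ct u = ct v`: `f i := [(i, false)]` for `i ∈ ct u`, `f i := u` otherwise: `sb f u = u`, `sb f v = v`, `sb f (psh z u) = psh (sb f z) u`, `ct (sb f z) ⊆ ct u`, so `θ u (s ++ sb f z ++ u)` (StL3) and `θ (psh (sb f z) u) u`; same for `v` (`ct (sb f z) ⊆ ct v`). So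
`u` `α` `sb f w` `(β ∩ γ)` `v`.
(4) If `ct u ≠ ct v`: StM4 for `γ` (from `γ u v`) and StM3: `γ (psh z x) x` for all `x ≠ []`. If `α` and `β` were both content preserving then `ct u = ct v` by the chain; so StM4 applies to `α` or to `β`: `α (psh z x) x` for all `x ≠ []`, or `β (psh z x) x` for all `x ≠ []`. Either way `u` and `psh z u`,
`psh z v` and `v` are related by `α` or by `β ∩ γ`. -/
def StM5 : Prop := ∀ θ : FIC, CRF θ → SRF θ → ModAt θ

end Pool.Agent.Helper75.CR
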