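import Pool.Agent.Helper75.CR.St

/-!
# Project CR (MP_265e56_al, helper75): statements, second part

The case `SL3 ∈ V`, necessity, and the passage from words to varieties.
-/

set_option autoImplicit false

namespace Pool.Agent.Helper75.CR

open Helper1.IM

/-! ## The case `SL3 ∈ V` -/

/-- `x x* = x* x` and `x x* x = x x*`. -/
def PII (ρ : FIC) : Prop := ρ.r [X 0, Y 0] [Y 0, X 0] ∧ ρ.r [X 0, Y 0, X 0] [X 0, Y 0]

/-- Paired words: some letter occurs with both signs. -/
def Prd (u : Wd) : Prop := ∃ i, (i, false) ∈ u ∧ (i, true) ∈ u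

/-- Same signed letters. -/
def SC (u v : Wd) : Prop := ∀ a, a ∈ u ↔ a ∈ v

/-- `SL3` satisfies all identities of `θ`. -/
def SLE (θ : FIC) : Prop := ∀ u v, θ.r u v → (Prd u ∧ Prd v) ∨ (¬ Prd u ∧ ¬ Prd v ∧ SC u v)

/-- Paired words with the same letters are equal. -/
def P3 (θ : FIC) : Prop := ∀ s t, Prd s → Prd t → ct s = ct t → θ.r s t

/-- All nonempty words with the same letters are equal. -/
def SLc (θ : FIC) : Prop := ∀ s t, s ≠ [] → ct s = ct t → θ.r s t

/-- All paired words are equal. -/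
def ZZ (θ : FIC) : Prop := ∀ s t, Prd s → Prd t → θ.r s t

theorem PII.mono {θ ρ : FIC} (h : PII θ) (hρ : Le θ ρ) : PII ρ := ⟨hρ _ _ h.1, hρ _ _ h.2⟩
theorem P3.mono {θ ρ : FIC} (h : P3 θ) (hρ : Le θ ρ) : P3 ρ := fun s t h1 h2 h3 => hρ _ _ (h s t h1 h2 h3)

/-- MODULE N1 (60 lines; theorem hN1 : StN1). Proof. Let `p = s st s`. Substituting `X 0 ↦ s` in `PII`: `s st s = st s s`, `s st s s = s st s`, i.e. `p s = p`; starring the second identity (`star'`): `st s s st s = s st s`, i.e. (with the first one) `st s p = p`, also `p st s = s st s st s = s (s st s)...`: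
from `x* x x* = x x*` (star of `x x* x = x x*`) and `x x* = x* x`: `p st s = (st s s) st s = st s s st s = p`, `s p = s (s st s) = s (st s s) = s st s s = p`. So `p s = p = s p`, `p p = p s st s = p st s = p`. From `s = s st s r = p r`: `p s = p p r = p r = s`; and `p s = p`: `s = p`. (The second hypothesis is not
needed.) `CRF` is not needed either. -/
def StN1 : Prop := ∀ ρ : FIC, PII ρ → ∀ s : Wd, s ≠ [] → (∃ r, ρ.r s (s ++ st s ++ r)) → ρ.r s (s ++ st s)

/-- MODULE N2 (80 lines; theorem hN2 (hL2 : StL2) (hM1 : StM1) (hN1 : StN1) : StN2). Words closed under `*` with the same letters are equal.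
Proof. `CRW (toP ρ)`. A word `s` is closed if `a ∈ s → fl a ∈ s`. (1) For closed `s ≠ []`: the letters of `st s` are letters of `s`, so `s = s st s r` by StL2, and `s = s st s` by StN1; so `st s = s` (`star'`: `st (s ++ st s) = s ++ st s`), and `s s = s st s = s`. (2) For closed `s, t` with the same letters: `s t` and `t s` are closed;
`s t = st (s t) = st t ++ st s = t s`. StL2: `s = s t r`, so `t s = t s t r = s t t r = s t r = s` (using `t s = s t`, `t t = t`). By symmetry `s t = t`; so `s = t s = s t = t`. -/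
def StN2 : Prop := ∀ ρ : FIC, CRF ρ → PII ρ → ∀ s t : Wd, s ≠ [] → t ≠ [] → (∀ a ∈ s, fl a ∈ s) → (∀ a ∈ t, fl a ∈ t) → SC s t → ρ.r s t

/-- MODULE N3 (120 lines; theorem hN3 (hL1 : StL1) (hL2 : StL2) (hM1 : StM1) (hN1 : StN1) (hN2 : StN2) : StN3). If `SL3 ∈ V`, `SL4 ∉ V` then paired words with the same letters are equal.
Proof. There are `u, v` with `θ u v` and not `SC u v`; so (`SLE`) both are paired. By symmetry there is a letter `a ∈ v`, `a ∉ u`. Let `j = a.1`. Substitute: `j ↦ [Y 1]` if `a.2 = false`, `j ↦ [X 1]` if `a.2 = true` (so `a` becomes `[Y 1]` and `fl a` becomes `[X 1]`), all other letters `↦ [X 0, Y 0]` (`st [X 0, Y 0] = [X 0, Y 0]`). Then `u` becomes a word `U`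
whose letters are in `{X 0, Y 0, X 1}` and `v` becomes `V` containing `Y 1`. Multiplying: `θ ([X 0, Y 0] ++ U ++ [X 1]) ([X 0, Y 0] ++ V ++ [X 1])`, the left word `P` has exactly the letters `X 0, Y 0, X 1`. By StL2 `Jl [X 0, Y 0, X 1] P` (letters of `P` are letters of `[X 0, Y 0, X 1]`), so
(*) `Jl [X 0, Y 0, X 1] [Y 1]`: `θ [X 0, Y 0, X 1] (b ++ [Y 1] ++ c)` for some `b, c`.
Let `s` be paired, `(l, false), (l, true) ∈ s`. Claim `Jl s [c]` for every `c` with `fl c ∈ s`: `Jl s [(l,false), (l,true), fl c]` by StL2, and substituting `X 0 ↦ [(l,false)]`, `1 ↦ [fl c]` in (*): `Jl [(l,false),(l,true),fl c] [c]`. So all letters of `st s` satisfy `Jl s [c]`, StL2 with `t := st s`: `s = s st s r`, so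
`s = s st s` by StN1. For `s, t` paired with `ct s = ct t`: `s st s` and `t st t` are closed words with the same letters (`(i,b)` for all `i ∈ ct s`), so equal by StN2. -/
def StN3 : Prop := ∀ θ : FIC, CRF θ → PII θ → SLE θ → (¬ ∀ u v, θ.r u v → SC u v) → P3 θ

/-- MODULE N4 (110 lines; theorem hN4 (hL2 : StL2) (hM1 : StM1) (hN1 : StN1) : StN4). A pair with different signed letters, one of them not paired.
Proof. (0) Claim: if `ρ (replicate (k+1) (X 0)) W` with `Y 0 ∈ W`, then `SLc ρ`. Proof: `Jl [X 0] (replicate (k+1) (X 0))` (StL2: its letters are letters of `[X 0]`), so `Jl [X 0] [Y 0]`; StL2 with `u = [X 0]`, `t = [Y 0]`: `[X 0] = [X 0] ++ [Y 0] ++ r`, so `ρ [X 0] [X 0, Y 0]` by StN1. Substituting: `ρ s (s ++ st s)` for all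
`s ≠ []`. For `ct s = ct t`: `s st s` and `t st t` are paired with the same letters: `P3`.
(1) Let `w` be unpaired and `a ∈ w'`, `a ∉ w`. Substitute `a.1 ↦ [Y 0]` if `a.2 = false`, `[X 0]` if `a.2 = true` (so `a` becomes `[Y 0]`, `fl a` becomes `[X 0]`); for `j ≠ a.1`: `j ↦ [Y 0]` if `(j, true) ∈ w`, `j ↦ [X 0]` otherwise. As `w` is unpaired every letter of `w` becomes `[X 0]`, so `w` becomes a power of `X 0` with at least one
factor, and `w'` becomes a word containing `Y 0`. Apply (0).
(2) If there is no such `a`: all letters of `w'` are letters of `w`, so `w'` is unpaired and (as not `SC w w'`) there is `a ∈ w`, `a ∉ w'`: apply (1) with `w`, `w'` exchanged (`w' ≠ []` by `ne'`). -/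
def StN4 : Prop := ∀ ρ : FIC, CRF ρ → PII ρ → P3 ρ → ∀ w w' : Wd, w ≠ [] → ¬ Prd w → ρ.r w w' → ¬ SC w w' → SLc ρ

/-- MODULE N5 (60 lines; theorem hN5 : StN5). A pair with different letters.
Proof. By symmetry there is `j ∈ ct w'`, `j ∉ ct w` (both words are nonempty). Substitute `j ↦ [X 1]`, all others `↦ [X 0, Y 0]` (equal to its star), and multiply by `[X 0, Y 0]` on the left: `w` becomes a paired word with `ct = {0}`, so equal to `[X 0, Y 0]` (`P3`); `w'` becomes a paired word with `ct = {0, 1}`, so equal to `[X 0, Y 0, X 1, Y 1]`.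
So `ρ [X 0, Y 0] [X 0, Y 0, X 1, Y 1]`; exchanging `0` and `1` and `P3`: `ρ [X 0, Y 0] [X 1, Y 1]`. For paired `s, t` substitute `0 ↦ s`, `1 ↦ t`: `ρ (s ++ st s) (t ++ st t)`, and `ρ s (s ++ st s)`, `ρ t (t ++ st t)` by `P3`. -/
def StN5 : Prop := ∀ ρ : FIC, P3 ρ → ∀ w w' : Wd, w ≠ [] → ρ.r w w' → ct w ≠ ct w' → ZZ ρ

/-- Signs for the free semigroup. -/
def SU : Sgn Unit where
  sg _ w := w
  o := ()
  nil := fun _ => rfl
  cng := fun _ _ => rfl
  sur := fun _ w hw => ⟨w, hw, rfl⟩
  lit := fun _ _ => rfl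
  two := fun _ _ _ _ _ => Or.inl rfl

/-- Plain words as words of the free involution semigroup. -/
def em (w : Wo Unit) : Wd := w.map (fun a => (a.1, false))

theorem em_append (u v : Wo Unit) : em (u ++ v) = em u ++ em v := by simp [em]
theorem ct_em (u : Wo Unit) : ct (em u) = cn u := by ext i; simp [em, ct, cn]
theorem em_sB (f : ℕ → Wo Unit) (u : Wo Unit) : em (sB SU f u) = sb (fun i => em (f i)) (em u) := by
  induction u with
  | nil => rfl
  | cons a u ih =>
    rw [sB_cons, em_append, ih]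
    change em (f a.1) ++ _ = sb _ ((a.1, false) :: em u)
    rw [sb_cons]
    simp

/-- The restriction of a congruence to plain words. -/
def plP (ρ : FIC) : Pg SU where
  r u v := ρ.r (em u) (em v)
  refl' u := ρ.refl' _
  symm' h := ρ.symm' h
  trans' h h' := ρ.trans' h h'
  mul' := by
    intro u v a b h
    simp only [em_append]
    exact ρ.mul' _ _ h
  sub' := by
    intro u v f hf h
    rw [em_sB, em_sB]
    exact ρ.sub' _ (fun i hi => hf i (by simpa [em] using hi)) h

/-- MODULE N6 (70 lines; theorem hN6 : StN6). Proof. `[X 0] = [X 0, X 0] ++ b` modulo `θ`; `[X 0]` is not paired, so by `SLE` the right side is not paired and has the letter `X 0` only: `b = replicate k (X 0)`, i.e. `x = x^(n+1)`, `n = k + 1 ≥ 1`. Last claim: this. `CRW`: `y = y y y^k = y^k y y` (powers of words). `SGW`: all signs are equal (`Unit`), `a = d = []`.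
`PRJ`: `p = w^n` (`(List.replicate n w).flatten`): `w^n w^n = w^(n-1) w^(n+1) = w^(n-1) w = w^n`; `p = w ++ w^(n-1) = w^(n-1) ++ w`; `S.sg b p = p`. -/
def StN6 : Prop := ∀ θ : FIC, CRF θ → SLE θ → CRW (plP θ) ∧ SGW (plP θ) ∧ PRJ (plP θ) ∧
  ∃ n, 1 ≤ n ∧ θ.r [X 0] (List.replicate (n + 1) (X 0))

/-- MODULE N7 (90 lines; theorem hN7 (hK : StK) (hL4 : StL4) (hN6 : StN6) : StN7). Congruences permute on unpaired words with the same signed letters.
Proof. `Bs SU (cP (plP θ))`, so `PM SU (cP (plP θ)) m` for all `m`. Let `f i := [(i, true)]` if `(i, true) ∈ u`, `[(i, false)]` otherwise. As `u` is unpaired, every letter of `u` (so of `w`, `v`) is mapped to its plain letter: `sb f u = em u0`, etc. (`u0 = u.map (fun a => (a.1, ()))`). `sb f (em u0) = u` (same for `w`, `v`).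
`cn u0 = ct u` etc. are equal. `α (em u0) (em w0)`, `β (em w0) (em v0)`. `PM` for `cP (plP α)`, `cP (plP β)`: `w1` with `β (em u0) (em w1)`, `α (em w1) (em v0)`, `cn w1 = cn u0`. `w' := sb f (em w1)`: `β u w'`, `α w' v`; letters of `w'`: for `i ∈ cn w1 = ct u` the letter of index `i` of `u`. -/
def StN7 : Prop := ∀ θ : FIC, CRF θ → SLE θ → ∀ α β : FIC, Le θ α → Le θ β → ∀ u w v : Wd, u ≠ [] → ¬ Prd u → SC u w → SC w v →
  α.r u w → β.r w v → ∃ w', SC u w' ∧ β.r u w' ∧ α.r w' v

/-- MODULE N8 (150 lines; theorem hN8 (hN4 : StN4) (hN5 : StN5) (hN7 : StN7) : StN8). The case `SL3 ∈ V`, `SL4 ∉ V`.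
Proof. Let `α ≤ γ`, `β` above `θ`, `Jn α β u v`, `γ u v`, to show `Jm α β γ u v`. `CRF, PII, P3` hold for `α, β, γ`. If `u = []`: `v = []`. Let `u ≠ []`, so all words of the chain are nonempty. Note: `s ≠ []` implies `Prd (s ++ st s)`; (A) if `SLc ρ` then `ρ s (s ++ st s)` for `s ≠ []`; (B) `SLc ρ` and `ZZ ρ` imply `ρ s t` for all nonempty `s, t`
(`s, s st s, t st t, t`). (C) if `ct u ≠ ct v` then some step of the chain changes `ct`, so `ZZ α` or `ZZ β` (StN5); and `ZZ γ` (StN5 for `γ u v`).
Case 1: `SLc α`. If `ct u = ct v`: `α u v`. Otherwise (C): if `ZZ α`: `α u v` by (B). If `ZZ β`: `u` is `α`-related to `u st u`, this is `β`- and `γ`-related to `v st v`, which is `α`-related to `v`.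
Case 2: not `SLc α`, `SLc β`. If `ct u = ct v`: `β u v`, `γ u v`. Otherwise (C): if `ZZ β`: `β u v` by (B), so `(β ∩ γ) u v`. If `ZZ α`: if `u, v` are both paired `α u v`. Otherwise, say `u` is unpaired: `γ u v`, not `SC u v` (as `ct u ≠ ct v`), so `SLc γ` (StN4), with `ZZ γ`: `γ` relates all nonempty words (B), so every `β`-step of the chain is a `β ∩ γ`-step
(nonempty words): `Jm α β γ u v`. (If `v` is unpaired: the same with `γ v u`.)
Case 3: neither `SLc α` nor `SLc β`. By StN4: if `x` is unpaired, nonempty and `ρ x x'`, `ρ = α, β`, then `SC x x'` (so `x'` is unpaired). (3a) `u` unpaired: by induction along the chain: there is `w` with `SC u w`, `α u w`, `β w v` and `SC u v` (an `α`-step after: StN7 with the roles `β, α`). `γ w v` by `α ≤ γ`; so `u` `α` `w` `(β ∩ γ)` `v`.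
(3b) `u` paired: all words of the chain are paired (an unpaired one would be related to unpaired ones only; steps are symmetric), so `v` is paired. If `ct u = ct v`: `θ u v` (`P3`). Otherwise (C): `ZZ α`: `α u v`; `ZZ β`: `β u v`, `γ u v`. -/
def StN8 : Prop := ∀ θ : FIC, CRF θ → PII θ → SLE θ → P3 θ → ModAt θ

/-! ## Necessity -/

/-- Words over `X 0`, `Y 0` in which both letters occur. -/
def Dw (w : Wd) : Prop := ct w = {0} ∧ X 0 ∈ w ∧ Y 0 ∈ w

/-- MODULE O1 (80 lines; theorem hO1 (hL2 : StL2) (hM1 : StM1) (hN6 : StN6) : StO1). The congruence `β` of the identities of the subalgebra `Dw`.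
Proof. `β.r u v := (u = [] ↔ v = []) ∧ ∀ f, (∀ i, Dw (f i)) → θ.r (sb f u) (sb f v)`. `mul'`: `sb_append`. `star'`: `sb_st`, `star'`. `sub'` for `g` (`g i ≠ []`): `sb f (sb g u) = sb (fun i => sb f (g i)) u` (`sb_sb`) and `Dw (sb f (g i))`: `g i` has a letter `a`; its image is `f a.1` or `st (f a.1)`, which contains `X 0` and `Y 0`; all letters of `sb f (g i)` have
index `0`. `Le θ β`: `sub'` (`Dw w` implies `w ≠ []`). Second claim: `n` from StN6 (`x = x^(n+1)`, so `y = y^(n+1)` for all words `y ≠ []`). For `Dw s`: StL2 with `u := s`, `t := st s` (letters of `st s` are `X 0`, `Y 0`, so letters of `s`): `s = x st s s` modulo `θ`. Let `y = st s ++ s`: `s = x y = x y^(n+1) = (x y) y^n = s y^n`. So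
`β [X 0] ([X 0] ++ ([Y 0, X 0])^n)`; `([Y 0, X 0])^n = (List.replicate n [Y 0, X 0]).flatten`; this word `q` is paired. -/
def StO1 : Prop := ∀ θ : FIC, CRF θ → SLE θ → ∃ β : FIC, Le θ β ∧
  (∀ u v, β.r u v → ∀ f : ℕ → Wd, (∀ i, Dw (f i)) → θ.r (sb f u) (sb f v)) ∧ ∃ q, Prd q ∧ β.r [X 0] q

/-- MODULE O2 (110 lines; theorem hO2 : StO2). Proof. `α.r u v := θ.r u v ∨ (Prd u ∧ Prd v)`, `γ.r u v := (Prd u ∧ Prd v) ∨ SC u v`. These are FICs: for `α` transitivity uses `SLE` (`θ u v`, `Prd v` gives `Prd u`); `Prd` is preserved by multiplication, `st` and substitution (`(i,false), (i,true) ∈ u`, `a ∈ f i`: `a` and `fl a` are letters of `sb f u`);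
`SC` is a congruence invariant under `st` and substitution, `SC u v` implies `Prd u ↔ Prd v`; `ne'`: `Prd []` is false, `SC [] v` implies `v = []`. `Le α γ`: `SLE`. `Jn α β u v` for all nonempty `u, v`: `u = a :: u'`; renaming `β [X 0] q` gives `β [a] q_a` with `q_a` paired (`sub'` with `0 ↦ [(a.1, false)]` or `[(a.1, true)]`...: substitute `X 0 ↦ [a]`),
so `β u (q_a ++ u')`, a paired word; paired words are `α`-related. `ModAt θ` for `α, β, γ`: for `u, v ≠ []` with `SC u v`: `Jm α β γ u v`. Let `δ u v := (Prd u ∧ Prd v) ∨ (¬ Prd u ∧ ¬ Prd v ∧ β.r u v)`. `α`-pairs are `δ`-pairs (`SLE`, `Le θ β`), `β ∩ γ`-pairs are `δ`-pairs (`SC` preserves `Prd`), `δ` is transitive and reflexive. So `δ u v`. For unpaired `u, v`: `β u v`. Apply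
to `[X 0], [X 0, X 0]` and `[X 0, X 1], [X 1, X 0]`. -/
def StO2 : Prop := ∀ θ β : FIC, SLE θ → ModAt θ → Le θ β → (∃ q, Prd q ∧ β.r [X 0] q) →
  β.r [X 0] [X 0, X 0] ∧ β.r [X 0, X 1] [X 1, X 0]

/-- MODULE O3 (80 lines; theorem hO3 (hL2 : StL2) (hM1 : StM1) (hO1 : StO1) (hO2 : StO2) : StO3). Proof. `β` from StO1; by StO2 and StO1: `θ s (s s)` and `θ (s t) (t s)` for all `s, t` with `Dw` (substitute `0 ↦ s`, `1 ↦ t`, others `↦ s`). Claim `θ (s t) s` for `Dw s`, `Dw t`: StL2 with `u := s` (letters of `t` are letters of `s`): `s = s t r` modulo `θ`; substituting `X 0` for all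
letters fixes `s`, `t`, so we may assume `ct r ⊆ {0}`. `r' := r ++ s`: `Dw r'`, and `s = s s = s t r s = s t r'`. So `s t = (s t r') t = (s r' t) t = s r' (t t) = s r' t = s t r' = s` (using `t r' = r' t`, `t t = t`). So `s = s t = t s = t`: all words with `Dw` are `θ`-equal. `[X 0, Y 0]`, `[Y 0, X 0]`, `[X 0, Y 0, X 0]` satisfy `Dw`. -/
def StO3 : Prop := ∀ θ : FIC, CRF θ → SLE θ → ModAt θ → PII θ

/-! ## Varieties -/

/-- Completely regular: every element lies in a subgroup. -/
def IsCR (A : InvSg) : Prop := ∀ a : A.carrier, ∃ b : A.carrier, a * b * a = a ∧ a * b = b * a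

/-- `V` satisfies `x x* = x* x` and `x x* x = x x*`. -/
def Abs (V : Set InvSg) : Prop := ∀ A ∈ V, ∀ a : A.carrier, a * Star.star a = Star.star a * a ∧ a * Star.star a * a = a * Star.star a

/-- Pairs of truth values. -/
abbrev TT : Type := Bool × Bool

/-- Componentwise meet of pairs of truth values. -/
def mul4 (p q : TT) : TT := (p.1 && q.1, p.2 && q.2)

/-- The swap of the components. -/
def star4 (p : TT) : TT := (p.2, p.1)

theorem mul4_assoc (p q r : TT) : mul4 (mul4 p q) r = mul4 p (mul4 q r) := by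
  simp [mul4, Bool.and_assoc]

theorem star4_mul4 (p q : TT) : star4 (mul4 p q) = mul4 (star4 q) (star4 p) := by
  rcases p with ⟨a, b⟩; rcases q with ⟨c, d⟩
  cases a <;> cases b <;> cases c <;> cases d <;> rfl

/-- Carrier of `SL4`. -/
structure C4 where
  val : TT

/-- Carrier of `SL3`: pairs of truth values which are not both true. -/
structure C3 where
  val : TT
  nt : ¬ (val.1 = true ∧ val.2 = true)

theorem C4.ext' {p q : C4} (h : p.val = q.val) : p = q := by cases p; cases q; cases h; rfl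
theorem C3.ext' {p q : C3} (h : p.val = q.val) : p = q := by cases p; cases q; cases h; rfl

theorem mul4_nt {p q : TT} (h : ¬ (p.1 = true ∧ p.2 = true)) : ¬ ((mul4 p q).1 = true ∧ (mul4 p q).2 = true) := by
  rcases p with ⟨a, b⟩; rcases q with ⟨c, d⟩
  cases a <;> cases b <;> cases c <;> cases d <;> simp_all [mul4]

instance sg4 : Semigroup C4 where
  mul p q := ⟨mul4 p.val q.val⟩
  mul_assoc p q r := C4.ext' (mul4_assoc p.val q.val r.val)

instance sm4 : StarMul C4 where
  star p := ⟨star4 p.val⟩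
  star_involutive _ := rfl
  star_mul p q := C4.ext' (star4_mul4 p.val q.val)

instance sg3 : Semigroup C3 where
  mul p q := ⟨mul4 p.val q.val, mul4_nt p.nt⟩
  mul_assoc p q r := C3.ext' (mul4_assoc p.val q.val r.val)

instance sm3 : StarMul C3 where
  star p := ⟨star4 p.val, fun h => p.nt ⟨h.2, h.1⟩⟩
  star_involutive _ := rfl
  star_mul p q := C3.ext' (star4_mul4 p.val q.val)

/-- The four element semilattice `{1, e, e*, 0}`: pairs of truth values, componentwise meet, the involution swaps the components. -/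
def SL4 : InvSg where
  carrier := C4
  ne := ⟨⟨(true, true)⟩⟩

/-- The three element semilattice `{e, e*, 0}`: the pairs of truth values which are not both true. -/
def SL3 : InvSg where
  carrier := C3
  ne := ⟨⟨(false, false), by decide⟩⟩

/-- MODULE P1 (40 lines; theorem hP1 : StP1). Proof. `FA θ ∈ Md θ` (`FA_mem`). For `a := clFA θ [X 0]`: `b = clFA θ w` (`clFA_surj`) with `a b a = a`, `a b = b a`, i.e. (`clFA_mul`, `clFA_eq`) `θ ([X 0] ++ w ++ [X 0]) [X 0]`, `θ ([X 0] ++ w) (w ++ [X 0])`. So `[X 0] = [X 0] (w [X 0]) = [X 0] [X 0] w` and `[X 0] = ([X 0] w) [X 0] = w [X 0] [X 0]`. -/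
def StP1 : Prop := ∀ θ : FIC, (∀ A ∈ Md θ, IsCR A) → CRF θ

/-- MODULE P2 (130 lines; theorem hP2 : StP2). Proof. Use `Id_iff_V1`, `V_cons_V1`, ... (file `M_V1`) for the values of words, or define the value directly. Value of a nonempty word `u` in `SL3` under `e`: first component true iff for all `(i,false) ∈ u`: `(e i).1` true and for all `(i,true) ∈ u`: `(e i).2` true; second component: the same with the
components exchanged. (→) `θ u v`, `u, v ≠ []` (if `u = []` then `v = []`, `SC`). If `u` is unpaired and `a ∉ u`... Choose `e i = (true,false)` if `(i,false) ∈ u`, `(false,true)` if `(i,true) ∈ u`, `(false,false)` otherwise: the value of `u` is `(true,false)`, so also of `v`; this forces all letters of `v` to be letters of `u`. In particular `v` is unpaired; by symmetry `SC u v`.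
If `u` is paired then `v` is paired (otherwise by the symmetric argument `u` would be unpaired). (←) If both are paired both values are `0 = (false,false)` (for the letter `i` with both signs: not both components of `e i` are true); if `SC u v` the values are equal by the description. -/
def StP2 : Prop := ∀ θ : FIC, SL3 ∈ Md θ ↔ SLE θ

/-- MODULE P3 (90 lines; theorem hP3 : StP3). Proof. As for P2 with `SL4`: choose `e i = (true, true)` for `i ≠ a.1` and `e a.1 = (false, true)`: the first component of the value of `u` is false iff `(a.1, false) ∈ u`, the second is false iff `(a.1, true) ∈ u`. -/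
def StP3 : Prop := ∀ θ : FIC, SL4 ∈ Md θ ↔ ∀ u v, θ.r u v → SC u v

/-- MODULE P4 (60 lines; theorem hP4 : StP4). Proof. (→) in `FA θ` with `a = clFA θ [X 0]`, `clFA_star`. (←) `A ∈ Md θ`: `Id' {A} [X 0, Y 0] [Y 0, X 0]` with `e = fun _ => a`: `evr A e (evl A e (X 0)) [Y 0] = a * star a` etc. (definitions `evl`, `evr`). -/
def StP4 : Prop := ∀ θ : FIC, Abs (Md θ) ↔ PII θ

/-- MODULE P5 (110 lines; theorem hP5 : StP5). `SL3 ∉ V` implies `x = b x* c`.
Proof. There are `u, v` with `θ u v`, not both paired and not (both unpaired and `SC`). By symmetry `u` is unpaired and not `SC u v` (if `v` is paired then `SC u v` is impossible). `u, v ≠ []`. (1) If there is `a ∈ v`, `a ∉ u`: substitute `a.1 ↦ [Y 0]` if `a.2 = false`, `[X 0]` if `a.2 = true`; `j ≠ a.1`: `[Y 0]` if `(j,true) ∈ u`, `[X 0]` otherwise. Every letter of `u` becomes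
`[X 0]`: `θ (replicate (k+1) (X 0)) W` with `Y 0 ∈ W`. (2) If not, all letters of `v` are letters of `u`, so `v` is unpaired and there is `a ∈ u`, `a ∉ v`: exchange `u` and `v`. Then: `θ [X 0] (replicate (k+1) (X 0) ++ b_k)` for some `b_k` for every `k`: induction, `X 0 ↦` last factor: `replicate k (X 0) ++ [X 0] = replicate k (X 0) ++ [X 0, X 0] ++ b`. So
`θ [X 0] (W ++ b_k)` and `W = b ++ [Y 0] ++ c'`. -/
def StP5 : Prop := ∀ θ : FIC, CRF θ → ¬ SLE θ → SRF θ

end Pool.Agent.Helper75.CR
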