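import Pool.Agent.Helper75.CR.NullFree

/-!
# Project CR (MP_265e56_al, helper75): statements, third part: varieties which contain `SL4`

If `SL4 ∈ V`, `V` satisfies `x x* = x* x`, `x x* x = x x*`, and `a b c` is always in `a c b A` (for example if `V` consists of normal bands of groups), then `L(V)` is
modular.
-/

set_option autoImplicit false

namespace Pool.Agent.Helper75.CR

open Helper1.IM

/-- `x y z = x z y r` for some word `r`. -/
def NRF (θ : FIC) : Prop := ∃ r, θ.r [X 0, X 1, X 2] ([X 0, X 2, X 1] ++ r)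

/-- In every member of `V` the element `a b c` is in the right ideal generated by `a c b`. -/
def NRM (V : Set InvSg) : Prop := ∀ A ∈ V, ∀ a b c : A.carrier, ∃ r : A.carrier, a * b * c = a * c * b * r

/-- Congruences preserving the signed letters. -/
def SCP (ρ : FIC) : Prop := ∀ u v, ρ.r u v → SC u v

/-- `R`-relation modulo `ρ`. -/
def Rs (ρ : FIC) (u v : Wd) : Prop := (∃ p, ρ.r (u ++ p) v) ∧ ∃ q, ρ.r (v ++ q) u

theorem NRF.mono {θ ρ : FIC} (h : NRF θ) (hρ : Le θ ρ) : NRF ρ := by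
  obtain ⟨r, hr⟩ := h
  exact ⟨r, hρ _ _ hr⟩
theorem Rs.rfl' (ρ : FIC) (u : Wd) : Rs ρ u u := ⟨⟨[], by simpa using ρ.refl' u⟩, [], by simpa using ρ.refl' u⟩
theorem Rs.symm {ρ : FIC} {u v : Wd} (h : Rs ρ u v) : Rs ρ v u := ⟨h.2, h.1⟩
theorem Rs.trans {ρ : FIC} {u v w : Wd} (h : Rs ρ u v) (h' : Rs ρ v w) : Rs ρ u w := by
  obtain ⟨⟨p, hp⟩, q, hq⟩ := h
  obtain ⟨⟨p', hp'⟩, q', hq'⟩ := h'
  refine ⟨⟨p ++ p', ?_⟩, q' ++ q, ?_⟩
  · rw [← List.append_assoc]
    exact ρ.trans' (ρ.mulR p' hp) hp'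
  · rw [← List.append_assoc]
    exact ρ.trans' (ρ.mulR q hq') hq
theorem Rs.mono {ρ σ : FIC} (hρσ : Le ρ σ) {u v : Wd} (h : Rs ρ u v) : Rs σ u v := by
  obtain ⟨⟨p, hp⟩, q, hq⟩ := h
  exact ⟨⟨p, hρσ _ _ hp⟩, q, hρσ _ _ hq⟩
theorem Rs.of {ρ : FIC} {u v : Wd} (h : ρ.r u v) : Rs ρ u v := ⟨⟨[], by simpa using h⟩, [], by simpa using ρ.symm' h⟩

/-- MODULE Q1 (150 lines; theorem hQ1 (hL2 : StL2) (hM1 : StM1) (hN2 : StN2) : StQ1). Dichotomy for the `R`-relation on words with the same signed letters.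
Proof. `CRW (toP θ)` (M1), so by StL2 (letters of `t` among those of `u`): (E) `Rs θ u (u ++ t)` if `u ≠ []` and all letters of `t` are letters of `u`.
(0) If `SC (p :: s) (p :: t)` then `Rs θ (p :: s) (p :: t)`: if `s = []` or `t = []` by (E). Otherwise `Rs θ (p::s) (p::s ++ t)`, `Rs θ (p::t) (p::t ++ s)` by (E), and substituting `0 ↦ [p]`, `1 ↦ s`, `2 ↦ t` in `NRF` (and with `s, t` exchanged): `Rs θ ([p] ++ s ++ t) ([p] ++ t ++ s)`.
Let `a = p :: s`, `w = q :: t`. If `p = q`: (0). Let `p ≠ q`. (i) `fl p ∈ a` and `fl q ∈ a` (as sets of letters `a` and `w` agree): let `c = a`. `[p, fl p, q, fl q]` and `[q, fl q, p, fl p]` are `θ`-equal by StN2 (closed words with the same letters), so `[p, fl p, q, fl q] ++ c` and `[q, fl q, p, fl p] ++ c` are `θ`-equal, and they have the letters of `a`;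
by (0) `Rs θ a ([p, fl p, q, fl q] ++ c)` and `Rs θ w ([q, fl q, p, fl p] ++ c)`. So `Rs θ a w`. (ii) `fl p ∉ a`. Then `q.1 ≠ p.1` (otherwise `q = fl p`, and `q ∈ w`). CLAIM: for every letter `r ∈ a` there are words `x_r = r :: ..`, `y_r = q :: ..` with the letters of `a` and `Rs ρ x_r y_r`. For `r = p`: `a`, `w`. For `r ≠ p`: `ρ (a ++ y) w` with
`y` from `Rs ρ a w` (its letters are letters of `a` by `SCP ρ`). Substitute `p ↦ r` (`p.1 ↦ [r]` if `p.2 = false`, `[fl r]` if `p.2 = true`), all other letters fixed, and append `p`: the left word starts with `r`, the right word with `q`; all letters `≠ p` of `a` are still there (as `fl p` is not a letter of `a`, only the letter `p` is changed), so both have the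
letters of `a`, and they are `ρ`-equal (`Rs.of`). By (0) any two words `x, y` with the letters of `a` starting with `r`, `r'` satisfy `Rs ρ x x_r`, `Rs ρ x_r y_r`, `Rs ρ y_r y_r'` (both start with `q`), .., so `Rs ρ x y`. (iii) `fl q ∉ a`: the same with `a` and `w` exchanged. -/
def StQ1 : Prop := ∀ θ ρ : FIC, CRF θ → PII θ → NRF θ → Le θ ρ → SCP ρ → ∀ a w : Wd, a ≠ [] → SC a w → Rs ρ a w →
  Rs θ a w ∨ ∀ x y, SC x a → SC y a → Rs ρ x y

/-- MODULE Q2 (170 lines; theorem hQ2 (hI : StI) (hL2 : StL2) (hM1 : StM1) (hQ1 : StQ1) : StQ2). Congruences preserving the signed letters permute.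
Proof. StI for the semigroup `T = {x : Wd // SC x u}` (concatenation; `u ≠ []`) and the restrictions of `θ, α, β`. First hypothesis: for `a, b ∈ T`: StL2 for `u := a`, `t := b ++ a`: `θ a (a b a s)`; `t := a`: `θ a (a a s1)`, `θ a (s2 a a)`, so `a s1 a = s2 a a s1.. `: `s2 a = s2 (a a s1) = (s2 a a) s1 = a s1`, `a s1 a = s2 a a = a`; `a = (a b a s) s1 a = a b (a s s1) a`; the letters
of `s, s1` are letters of `a`: `θ` preserves the signed letters because `Le θ α` and `SCP α`. Second: dually. `R`-permutability: `RR α a w`, `RR β w b` on `T`; these are `Rs α a w`, `Rs β w b` (for `←` append a word of `T`: `w = w w s1`). StQ1 for `α`: if `Rs θ a w` take `w' := b` (`Rs β a w`, so `Rs β a b`; `Rs α b b`); otherwise `Rs α a b`, take `w' := a`.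
`L`-permutability: `LL α a w` iff `Rs α (st a) (st w)` (`star'`), and `{st x : x ∈ T}` is the set of words with the letters of `st u`; so the same argument. -/
def StQ2 : Prop := ∀ θ α β : FIC, CRF θ → PII θ → NRF θ → Le θ α → Le θ β → SCP α → SCP β → ∀ u w v : Wd, u ≠ [] → SC u w → SC w v →
  α.r u w → β.r w v → ∃ w', SC u w' ∧ β.r u w' ∧ α.r w' v

/-- MODULE Q3 (150 lines; theorem hQ3 (hL1 : StL1) (hL2 : StL2) (hM1 : StM1) (hN1 : StN1) (hN2 : StN2) : StQ3). A congruence which does not preserve the signed letters identifies all paired words with the same letters. VARIANT of module N3 (and N4) which are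
landed: copy them.
Proof. Case 1: `u, v` both paired: word for word the proof of StN3 (docstring in `St2.lean`), with `ρ` for `θ`. Case 2: one of them, say `u`, is not paired (exchange otherwise; `u, v ≠ []`). As in the proof of StN4, (1), (2) (docstring in `St2.lean`): one gets `ρ (replicate (k+1) (X 0)) W` with `Y 0 ∈ W`, then `ρ [X 0] [X 0, Y 0]` by StL2 and StN1, so
`ρ s (s ++ st s)` for all `s ≠ []`; for `ct s = ct t` the words `s ++ st s`, `t ++ st t` are closed with the same letters, so equal by StN2. -/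
def StQ3 : Prop := ∀ ρ : FIC, CRF ρ → PII ρ → ∀ u v : Wd, ρ.r u v → ¬ SC u v → P3 ρ

/-- MODULE Q4 (220 lines; theorem hQ4 (hN4 : StN4) (hN5 : StN5) (hN7 : StN7) : StQ4). VARIANT of module N8 (landed).
Proof. `CRF`, `PII` hold for `α, β, γ`. `u = []`: `v = []`. Let `u ≠ []` (all words of the chain are nonempty). For `ρ = α, β` with `P3 ρ`, not `SLc ρ`, or with `SCP ρ`: (*) if `x ≠ []` is unpaired and `ρ x x'` then `SC x x'` (StN4 or `SCP`). `Prd (s ++ st s)` for `s ≠ []`; `SLc ρ` and `ZZ ρ` imply `ρ s t` for all nonempty `s, t` (see N8). If `SCP ρ` then `ρ x x'` implies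
`ct x = ct x'`.
CASE I: `P3 α`, `P3 β`: word for word the proof of StN8 (docstring in `St2.lean`), `P3 γ` follows from `P3 α`; in (3b) use `P3 α` instead of `P3 θ`.
CASE II: `P3 α`, `SCP β`. (a) `SLc α`: if `ct u = ct v`: `α u v`. Otherwise some `α`-step changes `ct` (a `β`-step does not), `ZZ α` (StN5), so `α u v`. (b) not `SLc α`: if `u` is unpaired: all words of the chain have the signed letters of `u` by (*), and as in (3a) of N8 (StN7): `w` with `α u w`, `β w v`; `γ w v`. If `u` is paired: all words of the chain are paired; if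
`ct u = ct v`: `α u v` (`P3 α`); otherwise some `α`-step changes `ct`, `ZZ α`, `α u v`.
CASE III: `SCP α`, `P3 β`. (a) `SLc β`: if `ct u = ct v`: `β u v` and `γ u v`. Otherwise a `β`-step changes `ct`, `ZZ β`, so `β u v`, `γ u v`. (b) not `SLc β`: `u` unpaired: as in II (b). `u` paired, so `v` paired: if `ct u = ct v`: `β u v` (`P3 β`), `γ u v`; otherwise `ZZ β` (a `β`-step changes `ct`), `β u v`, `γ u v`. -/
def StQ4 : Prop := ∀ θ α β γ : FIC, CRF θ → PII θ → SLE θ → Le θ α → Le θ β → Le α γ → (P3 α ∨ SCP α) → (P3 β ∨ SCP β) →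
  (P3 α ∨ P3 β) → ∀ u v : Wd, Jn α β u v → γ.r u v → Jm α β γ u v

/-- MODULE Q5 (60 lines; theorem hQ5 (hQ2 : StQ2) (hQ3 : StQ3) (hQ4 : StQ4) : StQ5).
Proof. Let `α ≤ γ`, `β` be above `θ`. `P3 α ∨ SCP α` by StQ3 (if not `SCP α` there are `u, v` with `α u v`, not `SC u v`); same for `β`. If `P3 α` or `P3 β`: StQ4. Otherwise `SCP α`, `SCP β`: `u = []` gives `v = []`; for `u ≠ []`, by induction along the chain (as in (3a) of N8, with StQ2 for the pair `β, α` in an `α`-step) there is `w` with `SC u w`, `α u w`,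
`β w v`, `SC u v`; `γ w v` as `α ≤ γ`; so `u` `α` `w` `(β ∩ γ)` `v`. -/
def StQ5 : Prop := ∀ θ : FIC, CRF θ → PII θ → SLE θ → NRF θ → ModAt θ

/-- MODULE Q6 (40 lines; theorem hQ6 : StQ6). Proof. `FA θ ∈ Md θ` (`FA_mem`), `a, b, c` the classes of `[X 0], [X 1], [X 2]`; `r = clFA θ w` (`clFA_surj`); `clFA_mul`, `clFA_eq`. -/
def StQ6 : Prop := ∀ θ : FIC, NRM (Md θ) → NRF θ

/-- The main theorem with the case of normal bands of groups. -/
theorem asmQ (hM5 : StM5) (hN3 : StN3) (hN8 : StN8) (hO3 : StO3) (hP1 : StP1) (hP2 : StP2) (hP3 : StP3) (hP4 : StP4) (hP5 : StP5)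
    (hQ5 : StQ5) (hQ6 : StQ6)
    (V : Set InvSg) (hV : IsVar V) (h : (∀ A ∈ V, IsCR A) ∨ (SL3 ∈ V ∧ ¬ HasNull V)) :
    (ModLat V → SL3 ∉ V ∨ Abs V) ∧ (SL3 ∉ V ∨ (Abs V ∧ (SL4 ∉ V ∨ NRM V)) → ModLat V) := by
  have hN : ¬ HasNull V := by
    rcases h with h | h
    · exact noNull_of_CR V h
    · exact h.2
  obtain ⟨θ, rfl⟩ := fV3'.2 V hV
  rw [fV5' θ]
  have key : SL3 ∉ Md θ → ModAt θ := by
    intro h3
    have hc : CRF θ := by
      rcases h with h | h
      · exact hP1 θ h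
      · exact absurd h.1 h3
    exact hM5 θ hc (hP5 θ hc (fun h' => h3 ((hP2 θ).2 h')))
  constructor
  · intro hm
    by_cases h3 : SL3 ∈ Md θ
    · have hs := (hP2 θ).1 h3
      exact Or.inr ((hP4 θ).2 (hO3 θ (hP6 θ hN hs) hs hm))
    · exact Or.inl h3
  · rintro (h3 | ⟨hab, h4⟩)
    · exact key h3
    · by_cases h3 : SL3 ∈ Md θ
      · have hs := (hP2 θ).1 h3
        have hc := hP6 θ hN hs
        have hp := (hP4 θ).1 hab
        rcases h4 with h4 | h4
        · exact hN8 θ hc hp hs (hN3 θ hc hp hs (fun h' => h4 ((hP3 θ).2 h')))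
        · exact hQ5 θ hc hp hs (hQ6 θ h4)
      · exact key h3

/-- The main theorem without the case `NRM`. -/
theorem asmM (hM5 : StM5) (hN3 : StN3) (hN8 : StN8) (hO3 : StO3) (hP1 : StP1) (hP2 : StP2) (hP3 : StP3) (hP4 : StP4) (hP5 : StP5)
    (V : Set InvSg) (hV : IsVar V) (h : (∀ A ∈ V, IsCR A) ∨ (SL3 ∈ V ∧ ¬ HasNull V)) :
    (ModLat V → SL3 ∉ V ∨ Abs V) ∧ (SL3 ∉ V ∨ (SL4 ∉ V ∧ Abs V) → ModLat V) := by
  have hN : ¬ HasNull V := by
    rcases h with h | h
    · exact noNull_of_CR V h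
    · exact h.2
  have hm := asm' hM5 hN3 hN8 hO3 hP1 hP2 hP3 hP4 hP5 V hV hN
  refine ⟨hm.1, ?_⟩
  rintro (h3 | ⟨h4, hab⟩)
  · rcases h with h | h
    · exact hm.2 (Or.inl ⟨h3, h⟩)
    · exact absurd h.1 h3
  · by_cases h3 : SL3 ∈ V
    · exact hm.2 (Or.inr ⟨h3, h4, hab⟩)
    · rcases h with h | h
      · exact hm.2 (Or.inl ⟨h3, h⟩)
      · exact absurd h.1 h3

end Pool.Agent.Helper75.CR
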